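import Pool.Agent.K1H70.MU.Fields

/-!
# Complex conjugations
-/

set_option autoImplicit false
set_option linter.all false

namespace Pool.Agent.K1H70.MU

open Module NumberField IntermediateField
open scoped ComplexConjugate
open Pool.Agent.Q60.MU (Qb)

/-- `c` is the complex conjugation belonging to the embedding `φ` -/
def IsCC (φ : Qb →+* ℂ) (c : GQ) : Prop := ∀ x, φ (c x) = conj (φ x)

theorem exists_emb (φ ψ : Qb →+* ℂ) : ∃ g : GQ, ∀ x, ψ x = φ (g x) := by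
  obtain ⟨σ, hσ⟩ := ComplexEmbedding.exists_comp_symm_eq_of_comp_eq (k := ℚ) φ ψ (by ext; simp)
  refine ⟨σ.symm, fun x => ?_⟩
  rw [← hσ]
  rfl

theorem exists_cc : ∃ (φ : Qb →+* ℂ) (c : GQ), IsCC φ c := by
  let φ : Qb →+* ℂ := (IsAlgClosed.lift (R := ℚ) (S := Qb) (M := ℂ)).toRingHom
  obtain ⟨g, hg⟩ := exists_emb φ ((starRingEnd ℂ).comp φ)
  exact ⟨φ, g, fun x => (hg x).symm⟩

variable {φ : Qb →+* ℂ} {c : GQ}

theorem IsCC.sq (h : IsCC φ c) (x : Qb) : c (c x) = x := by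
  apply φ.injective
  rw [h, h, Complex.conj_conj]

theorem IsCC.inv_eq (h : IsCC φ c) : c⁻¹ = c := by
  rw [inv_eq_iff_mul_eq_one]
  ext x
  exact h.sq x

theorem ext_emb (φ : Qb →+* ℂ) {F : IntermediateField ℚ Qb} (ψ : F →+* ℂ) :
    ∃ g : GQ, ∀ x : F, ψ x = φ (g x) := by
  have : Algebra.IsAlgebraic F Qb := Algebra.IsAlgebraic.tower_top (K := ℚ) F
  obtain ⟨g, hg⟩ := exists_emb φ (ComplexEmbedding.lift Qb ψ)
  refine ⟨g, fun x => ?_⟩
  rw [← hg]
  exact (ComplexEmbedding.lift_algebraMap_apply Qb ψ x).symm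

theorem real_place (h : IsCC φ c) {F : IntermediateField ℚ Qb} (hF : ∀ x ∈ F, c x = x) :
    Nonempty (F →+* ℝ) := by
  have h1 : ComplexEmbedding.IsReal (φ.comp (algebraMap F Qb)) := by
    rw [ComplexEmbedding.isReal_iff]
    ext x
    have h2 := h (x : Qb)
    rw [hF x x.2] at h2
    exact h2.symm
  exact ⟨h1.embedding⟩

/-- the commutators with `c` fix `c x` if they fix `x` -/
theorem comm_fix {x : Qb} (hx : ∀ g : GQ, (g * c * g⁻¹ * c⁻¹) x = x) (g : GQ) :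
    (g * c * g⁻¹ * c⁻¹) (c x) = c x := by
  have h1 := hx (c⁻¹ * g)
  have h2 : g * c * g⁻¹ * c⁻¹ * c = c * ((c⁻¹ * g) * c * (c⁻¹ * g)⁻¹ * c⁻¹) := by group
  have h3 := congrArg (fun t : GQ => t x) h2
  simp only [AlgEquiv.mul_apply] at h3 h1 ⊢
  rw [h3, h1]

theorem c_mem {F : IntermediateField ℚ Qb} (hF : ∀ g : GQ, ∀ x ∈ F, (g * c * g⁻¹ * c⁻¹) x = x)
    {x : Qb} (hx : x ∈ F) : c x ∈ F := by
  rw [← InfiniteGalois.fixedField_fixingSubgroup F, mem_fixedField_iff]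
  intro σ hσ
  have h1 := comm_fix (fun g => hF g x hx) σ
  have h2 : σ⁻¹ x = x := (IntermediateField.mem_fixingSubgroup_iff _ _).1 (inv_mem hσ) x hx
  have h3 : (σ * c * σ⁻¹ * c⁻¹) (c x) = σ (c x) := by
    simp only [AlgEquiv.mul_apply]
    rw [← AlgEquiv.mul_apply c⁻¹ c, inv_mul_cancel, AlgEquiv.one_apply, h2]
  rw [← h3, h1]

/-- all the embeddings of `F` are compatible with `c` -/
theorem emb_c (h : IsCC φ c) {F : IntermediateField ℚ Qb}
    (hF : ∀ g : GQ, ∀ x ∈ F, (g * c * g⁻¹ * c⁻¹) x = x) (ψ : F →+* ℂ) (x : F) :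
    conj (ψ x) = ψ ⟨c x, c_mem hF x.2⟩ := by
  obtain ⟨g, hg⟩ := ext_emb φ ψ
  rw [hg, hg, ← h]
  congr 1
  have h1 := hF g⁻¹ x x.2
  have h2 : c * g = g * (g⁻¹ * c * g⁻¹⁻¹ * c⁻¹) * c := by group
  have h3 := comm_fix (fun g => hF g x x.2) g⁻¹
  have h4 := congrArg (fun t : GQ => t (x : Qb)) h2
  simp only [AlgEquiv.mul_apply] at h4 h3 ⊢
  rw [h4, h3]

theorem totally_real (h : IsCC φ c) {F : IntermediateField ℚ Qb} (hF : ∀ x ∈ F, c x = x)
    (hF' : ∀ g : GQ, ∀ x ∈ F, (g * c * g⁻¹ * c⁻¹) x = x) : IsTotallyReal F := by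
  refine ⟨fun w => ?_⟩
  rw [← InfinitePlace.mk_embedding w, InfinitePlace.isReal_mk_iff, ComplexEmbedding.isReal_iff]
  ext x
  have h1 := emb_c h hF' w.embedding x
  rw [ComplexEmbedding.conjugate_coe_eq, h1]
  congr 1
  exact Subtype.ext (hF x x.2)

theorem cm_field (h : IsCC φ c) {F : IntermediateField ℚ Qb} (hfd : FiniteDimensional ℚ F)
    (hF' : ∀ g : GQ, ∀ x ∈ F, (g * c * g⁻¹ * c⁻¹) x = x) {x₀ : Qb} (hx₀ : x₀ ∈ F)
    (hne : c x₀ ≠ x₀) : IsCMField F := by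
  have hnf : NumberField F := ⟨⟩
  -- totally complex
  have htc : IsTotallyComplex F := by
    refine ⟨fun w => ?_⟩
    rw [← InfinitePlace.mk_embedding w, InfinitePlace.isComplex_mk_iff, ComplexEmbedding.isReal_iff]
    intro h1
    have h2 := congrArg (fun f : F →+* ℂ => f ⟨x₀, hx₀⟩) h1
    rw [ComplexEmbedding.conjugate_coe_eq, emb_c h hF' w.embedding ⟨x₀, hx₀⟩] at h2
    exact hne (congrArg Subtype.val (w.embedding.injective h2))
  -- the restriction of `c`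
  let σ₀ : F →ₐ[ℚ] F := ((c : Qb →ₐ[ℚ] Qb).comp F.val).codRestrict F.toSubalgebra
    (fun x => c_mem hF' x.2)
  have hσ₀ : ∀ x : F, ((σ₀ x : F) : Qb) = c x := fun x => rfl
  have hσσ : σ₀.comp σ₀ = AlgHom.id ℚ F := by
    ext x
    show ((σ₀ (σ₀ x) : F) : Qb) = x
    rw [hσ₀, hσ₀, h.sq]
  let σ : F ≃ₐ[ℚ] F := AlgEquiv.ofAlgHom σ₀ σ₀ hσσ hσσ
  have hσ : ∀ x : F, ((σ x : F) : Qb) = c x := fun x => rfl
  have hord : orderOf σ = 2 := by
    refine orderOf_eq_prime ?_ ?_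
    · rw [pow_two]
      ext x
      show ((σ (σ x) : F) : Qb) = x
      rw [hσ, hσ, h.sq]
    · intro h1
      apply hne
      have h2 := congrArg (fun t : F ≃ₐ[ℚ] F => ((t ⟨x₀, hx₀⟩ : F) : Qb)) h1
      exact h2
  let L : IntermediateField ℚ F := fixedField (Subgroup.zpowers σ)
  have hL : ∀ x : L, c ((x : F) : Qb) = ((x : F) : Qb) := by
    intro x
    have h1 := (mem_fixedField_iff _ _).1 x.2 σ (Subgroup.mem_zpowers σ)
    exact congrArg Subtype.val h1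
  have hLr : IsTotallyReal L := by
    refine ⟨fun w => ?_⟩
    rw [← InfinitePlace.mk_embedding w, InfinitePlace.isReal_mk_iff, ComplexEmbedding.isReal_iff]
    ext x
    have h1 := emb_c h hF' (ComplexEmbedding.lift F w.embedding) (x : F)
    have h2 : (⟨c ((x : F) : Qb), c_mem hF' (x : F).2⟩ : F) = (x : F) := Subtype.ext (hL x)
    rw [h2] at h1
    have h3 : ComplexEmbedding.lift F w.embedding (x : F) = w.embedding x :=
      ComplexEmbedding.lift_algebraMap_apply F w.embedding x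
    rw [h3] at h1
    exact h1
  have hq : Algebra.IsQuadraticExtension L F := by
    refine ⟨?_⟩
    show finrank (fixedField (Subgroup.zpowers σ)) F = 2
    rw [IntermediateField.finrank_fixedField_eq_card, Nat.card_zpowers, hord]
  exact IsCMField.ofCMExtension L F

end Pool.Agent.K1H70.MU
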