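import Pool.Agent.K1H70.MU.Layer

/-! # Finite decomposition in the cyclotomic `ℤ_p`-extension -/

set_option autoImplicit false
set_option linter.all false

namespace Pool.Agent.K1H70.MU

open NumberField Polynomial IntermediateField
open scoped Pointwise
open Pool.Agent.Q60.MU (Qb fix_fixed finite_fixed index_ne_zero')

section

variable (p : ℕ) [hp : Fact p.Prime]

/-- the order of a Frobenius element modulo `H p m` -/
theorem frob_bound (hp2 : p ≠ 2) {ℓ : ℕ} (hℓ : ℓ.Prime) (hne : ℓ ≠ p) {τ : GQ}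
    (hτ : ∀ k : ℕ, ∀ z : Qb, z ^ p ^ k = 1 → τ z = z ^ ℓ) (m i : ℕ)
    (h : τ ^ p ^ i ∈ H p m) : m + 1 ≤ padicValNat p (ℓ ^ (p - 1) - 1) + i := by
  have h1 : (chi p m τ : ZMod (p ^ (m + 1))) = (ℓ : ℕ) :=
    chi_eq_nat p m τ ℓ (hτ (m + 1) _ (zt_spec p m).pow_eq_one)
  rw [mem_H, map_pow, ← pow_mul] at h
  have h2 := congrArg (fun u : (ZMod (p ^ (m + 1)))ˣ => (u : ZMod (p ^ (m + 1)))) h
  simp only [Units.val_pow_eq_pow_val, h1, Units.val_one] at h2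
  set x : ℕ := ℓ ^ (p - 1) with hx
  have h3 : ((x ^ p ^ i : ℕ) : ZMod (p ^ (m + 1))) = ((1 : ℕ) : ZMod (p ^ (m + 1))) := by
    rw [hx, ← pow_mul, mul_comm]
    push_cast
    exact h2
  have hl1 : 1 < x := Nat.one_lt_pow (Nat.sub_ne_zero_of_lt hp.out.one_lt) hℓ.one_lt
  have hdiv : p ^ (m + 1) ∣ x ^ p ^ i - 1 ^ p ^ i := by
    rw [one_pow]
    have h4 := ((ZMod.natCast_eq_natCast_iff _ _ _).1 h3).symm
    exact (Nat.modEq_iff_dvd' (Nat.one_le_pow _ _ (by omega))).1 h4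
  have hcop : ℓ.Coprime p := (Nat.coprime_primes hℓ hp.out).2 hne
  have hpx : p ∣ x - 1 := by
    have h5 := Nat.ModEq.pow_totient hcop
    rw [Nat.totient_prime hp.out] at h5
    exact (Nat.modEq_iff_dvd' (by omega)).1 h5.symm
  have hnx : ¬ p ∣ x := by
    intro h6
    have h7 := hp.out.dvd_of_dvd_pow h6
    exact hne ((Nat.prime_dvd_prime_iff_eq hp.out hℓ).1 h7).symm
  have hodd : Odd p := hp.out.odd_of_ne_two hp2
  have h8 := padicValNat.pow_sub_pow (p := p) hodd hl1 hpx hnx (n := p ^ i)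
    (pow_ne_zero _ hp.out.ne_zero)
  rw [padicValNat.prime_pow] at h8
  rw [← h8]
  refine (padicValNat_dvd_iff_le ?_).1 hdiv
  rw [one_pow]
  have h9 : 1 < x ^ p ^ i := Nat.one_lt_pow (pow_ne_zero _ hp.out.ne_zero) hl1
  omega

theorem finDec_ne (hp2 : p ≠ 2) {ℓ : ℕ} (hℓ : ℓ.Prime) (hne : ℓ ≠ p) :
    ∃ t, ∀ m, ∃ T : Finset (Ideal (𝓞 Qb)), T.card ≤ t ∧
      ∀ P : Ideal (𝓞 Qb), P.IsPrime → (ℓ : 𝓞 Qb) ∈ P → ∃ Q ∈ T, ∃ σ ∈ H p m, P = σ • Q := by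
  classical
  by_cases hex : ∃ P₀ : Ideal (𝓞 Qb), P₀.IsPrime ∧ (ℓ : 𝓞 Qb) ∈ P₀
  swap
  · exact ⟨0, fun m => ⟨∅, le_rfl, fun P hP hP' => absurd ⟨P, hP, hP'⟩ hex⟩⟩
  obtain ⟨P₀, hP₀, hℓP₀⟩ := hex
  obtain ⟨τ, hτP, hτ⟩ := exists_frob hℓ hP₀ hℓP₀
  have hroot : ∀ k : ℕ, ∀ z : Qb, z ^ p ^ k = 1 → τ z = z ^ ℓ := fun k z hz =>
    frob_root hp.out hℓ hne hP₀ hℓP₀ hτ hz
  refine ⟨p ^ padicValNat p (ℓ ^ (p - 1) - 1), fun m => ?_⟩
  set K : Subgroup GQ := H p m ⊔ Subgroup.zpowers τ with hK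
  have hHK : H p m ≤ K := le_sup_left
  have hτK : τ ∈ K := Subgroup.mem_sup_right (Subgroup.mem_zpowers τ)
  have hmul := Subgroup.relIndex_mul_index hHK
  rw [H_index] at hmul
  obtain ⟨j, hj, hKj⟩ := (Nat.dvd_prime_pow hp.out).1 (⟨_, by rw [← hmul, mul_comm]⟩ :
    K.index ∣ p ^ m)
  have hrel : (H p m).relIndex K = p ^ (m - j) := by
    have h1 : p ^ m = p ^ (m - j) * p ^ j := by rw [← pow_add, Nat.sub_add_cancel hj]
    rw [hKj, h1] at hmul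
    exact Nat.eq_of_mul_eq_mul_right (pow_pos hp.out.pos j) hmul
  have hpow : τ ^ p ^ (m - j) ∈ H p m := by
    have h1 := ((H p m).subgroupOf K).pow_index_mem (⟨τ, hτK⟩ : K)
    have h2 : ((H p m).subgroupOf K).index = p ^ (m - j) := hrel
    rw [h2] at h1
    exact h1
  have hb := frob_bound p hp2 hℓ hne hroot m (m - j) hpow
  have hjs : j ≤ padicValNat p (ℓ ^ (p - 1) - 1) := by omega
  have hK0 : K.index ≠ 0 := by rw [hKj]; exact pow_ne_zero _ hp.out.ne_zero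
  have hfi : K.FiniteIndex := ⟨hK0⟩
  have hft : Fintype (GQ ⧸ K) := Fintype.ofFinite _
  refine ⟨Finset.univ.image fun q : GQ ⧸ K => q.out • P₀, ?_, ?_⟩
  · refine Finset.card_image_le.trans ?_
    rw [Finset.card_univ, ← Nat.card_eq_fintype_card]
    have : Nat.card (GQ ⧸ K) = p ^ j := hKj
    rw [this]
    exact Nat.pow_le_pow_right hp.out.pos hjs
  · intro P hP hℓP
    obtain ⟨g, hg⟩ := trans_Q hℓ hP₀ hP hℓP₀ hℓP
    obtain ⟨k, hk⟩ := QuotientGroup.mk_out_eq_mul K g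
    have hk' : ((k : GQ))⁻¹ ∈ H p m ⊔ Subgroup.zpowers τ := inv_mem k.2
    obtain ⟨h, hh, z, hz, hhz⟩ := Subgroup.mem_sup_of_normal_left.1 hk'
    have hzP : z • P₀ = P₀ := by
      have h1 : Subgroup.zpowers τ ≤ MulAction.stabilizer GQ P₀ := by
        rw [Subgroup.zpowers_le]
        exact hτP
      exact h1 hz
    set q : GQ := ((g : GQ ⧸ K)).out with hq
    have hgq : g = q * h * z := by
      rw [mul_assoc, hhz, hk]
      group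
    refine ⟨q • P₀, Finset.mem_image.2 ⟨(g : GQ ⧸ K), Finset.mem_univ _, rfl⟩, q * h * q⁻¹,
      (H_normal p m).conj_mem h hh q, ?_⟩
    rw [hg, hgq, mul_smul, hzP, mul_smul (q * h) q⁻¹, inv_smul_smul]

theorem comap_p (m : ℕ) {P : Ideal (𝓞 Qb)} (hP : P.IsPrime) (hpP : (p : 𝓞 Qb) ∈ P)
    {P' : Ideal (𝓞 Qb)} (hP' : P'.IsPrime) (hpP' : (p : 𝓞 Qb) ∈ P') :
    P.comap (algebraMap (𝓞 (cyc p m)) (𝓞 Qb)) = P'.comap (algebraMap (𝓞 (cyc p m)) (𝓞 Qb)) := by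
  have hfd := cyc_fd p m
  have hnf : NumberField (cyc p m) := ⟨⟩
  have hcy := cyc_inst p m
  have hz := hcy.zeta_spec
  have key : ∀ Q : Ideal (𝓞 Qb), Q.IsPrime → (p : 𝓞 Qb) ∈ Q →
      Q.comap (algebraMap (𝓞 (cyc p m)) (𝓞 Qb)) =
        Ideal.span {(IsCyclotomicExtension.zeta_spec (p ^ (m + 1)) ℚ (cyc p m)).toInteger - 1} := by
    intro Q hQ hpQ
    have h1 : (Q.comap (algebraMap (𝓞 (cyc p m)) (𝓞 Qb))).IsPrime := Ideal.comap_isPrime _ Q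
    have h2 : (Q.comap (algebraMap (𝓞 (cyc p m)) (𝓞 Qb))).LiesOver (Ideal.span {(p : ℤ)}) := by
      refine ⟨?_⟩
      rw [← comap_int hp.out hQ hpQ]
      rfl
    exact IsCyclotomicExtension.Rat.eq_span_zeta_sub_one_of_liesOver p m (cyc p m) _ _
  rw [key P hP hpP, key P' hP' hpP']

theorem finDec_p (m : ℕ) {P : Ideal (𝓞 Qb)} (hP : P.IsPrime) (hpP : (p : 𝓞 Qb) ∈ P)
    {P' : Ideal (𝓞 Qb)} (hP' : P'.IsPrime) (hpP' : (p : 𝓞 Qb) ∈ P') :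
    ∃ σ ∈ H p m, P' = σ • P := by
  obtain ⟨σ, hσ, h⟩ := trans_L (cyc p m) P P' (comap_p p m hP hpP hP' hpP')
  refine ⟨σ, ker_le_H p m ?_, h⟩
  rw [ker_chi]
  exact hσ

/-- **Every prime number is finitely decomposed in the cyclotomic `ℤ_p`-extension.** -/
theorem finDec (hp2 : p ≠ 2) {ℓ : ℕ} (hℓ : ℓ.Prime) :
    ∃ t, ∀ m, ∃ T : Finset (Ideal (𝓞 Qb)), T.card ≤ t ∧
      ∀ P : Ideal (𝓞 Qb), P.IsPrime → (ℓ : 𝓞 Qb) ∈ P → ∃ Q ∈ T, ∃ σ ∈ H p m, P = σ • Q := by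
  by_cases hne : ℓ = p
  swap
  · exact finDec_ne p hp2 hℓ hne
  subst hne
  by_cases hex : ∃ P₀ : Ideal (𝓞 Qb), P₀.IsPrime ∧ (ℓ : 𝓞 Qb) ∈ P₀
  swap
  · exact ⟨0, fun m => ⟨∅, le_rfl, fun P hP hP' => absurd ⟨P, hP, hP'⟩ hex⟩⟩
  obtain ⟨P₀, hP₀, hℓP₀⟩ := hex
  refine ⟨1, fun m => ⟨{P₀}, by simp, fun P hP hP' => ⟨P₀, Finset.mem_singleton_self _, ?_⟩⟩⟩
  exact finDec_p ℓ m hP₀ hℓP₀ hP hP'

/-- the primes which matter for an open subgroup -/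
theorem ramified (hp2 : p ≠ 2) {K : Subgroup GQ} (hKo : IsOpen (K : Set GQ)) (hKf : K.index ≠ 0) :
    ∃ t, ∀ m, ∃ T : Finset (Ideal (𝓞 Qb)), T.card ≤ t ∧
        ∀ w, ID p w ⊓ H p m ≤ K ∨ ∃ u ∈ T, ∃ d ∈ H p m, w = d • u := by
  classical
  have hfd := finite_fixed hKo hKf
  have hfix := fix_fixed hKo
  obtain ⟨c, hc0, hc⟩ := exists_bad (fixedField K)
  rw [hfix] at hc
  choose! t T hTt hT using fun (ℓ : ℕ) (hℓ : ℓ.Prime) => finDec p hp2 hℓ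
  have hcp : c * p ≠ 0 := mul_ne_zero hc0 hp.out.ne_zero
  refine ⟨∑ ℓ ∈ (c * p).primeFactors, t ℓ,
    fun m => ⟨(c * p).primeFactors.biUnion fun ℓ => T ℓ m, ?_, ?_⟩⟩
  · refine Finset.card_biUnion_le.trans (Finset.sum_le_sum fun ℓ hℓ => ?_)
    exact hTt ℓ (Nat.prime_of_mem_primeFactors hℓ) m
  · intro P
    by_cases h : ID p P ≤ K
    · exact Or.inl (inf_le_left.trans h)
    · right
      obtain ⟨σ, hσ, hσK⟩ := SetLike.not_le_iff_exists.1 h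
      have hP : IsPr P := by
        by_contra hcon
        rw [not_pr_ID hcon, Subgroup.mem_bot] at hσ
        exact hσK (hσ ▸ one_mem K)
      have hcP : ((c * p : ℕ) : 𝓞 Qb) ∈ P := by
        rw [Nat.cast_mul]
        rw [mem_ID hP] at hσ
        rcases hσ with h1 | ⟨h1, -⟩
        · exact Ideal.mul_mem_right _ _ (hc P σ h1 hσK)
        · exact Ideal.mul_mem_left _ _ h1
      obtain ⟨ℓ, hℓ, hℓP⟩ := exists_prime hP.1 hcp hcP
      obtain ⟨B, hB, σ', hσ', h3⟩ := hT ℓ (Nat.prime_of_mem_primeFactors hℓ) m P hP.1 hℓP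
      exact ⟨B, Finset.mem_biUnion.2 ⟨ℓ, hℓ, hB⟩, σ', hσ', h3⟩

end

end Pool.Agent.K1H70.MU
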