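import Pool.Agent.K1H70.MU.Dec

/-!
# Translation to number fields
-/

set_option autoImplicit false
set_option linter.all false

namespace Pool.Agent.K1H70.MU

open Subgroup Module IntermediateField NumberField
open scoped Pointwise commutatorElement
open Pool.Agent.Q60.MU (Qb fix_fixed finite_fixed index_ne_zero' RankLe Mu0 IsSimple stab gens
  reduction exists_vec_P isOpen_normalCore)

/-- `M` is a Galois extension of `E` whose Galois group is abelian of exponent `p`, no prime of `E`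
ramifies in `M`, and all the primes of `E` above `p` split completely in `M`. -/
structure UnrEl (p : ℕ) (E M : IntermediateField ℚ Qb) : Prop where
  le : E ≤ M
  normal : ∀ σ ∈ E.fixingSubgroup, ∀ x ∈ M, σ x ∈ M
  comm : ∀ σ ∈ E.fixingSubgroup, ∀ τ ∈ E.fixingSubgroup, ∀ x ∈ M, σ (τ x) = τ (σ x)
  exp : ∀ σ ∈ E.fixingSubgroup, ∀ x ∈ M, (σ ^ p) x = x
  unram : ∀ P : Ideal (𝓞 Qb), P.IsPrime → P ≠ ⊥ → ∀ σ ∈ E.fixingSubgroup,
    (∀ y : 𝓞 Qb, σ • y - y ∈ P) → ∀ x ∈ M, σ x = x
  split : ∀ P : Ideal (𝓞 Qb), P.IsPrime → P ≠ ⊥ → (p : 𝓞 Qb) ∈ P → ∀ σ ∈ E.fixingSubgroup,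
    σ • P = P → ∀ x ∈ M, σ x = x

/-- the extensions as in `UnrEl` have degree at most `C` -/
def DegLe (p : ℕ) (E : IntermediateField ℚ Qb) (C : ℕ) : Prop :=
  ∀ M : IntermediateField ℚ Qb, FiniteDimensional ℚ M → UnrEl p E M →
    finrank ℚ M ≤ C * finrank ℚ E

theorem rankLe_iff {p : ℕ} (E : IntermediateField ℚ Qb) [FiniteDimensional ℚ E] (C : ℕ) :
    RankLe p (ID p) E.fixingSubgroup C ↔ DegLe p E C := by
  have hK0 := index_ne_zero' E
  constructor
  · intro h M hM hu
    have hWK : M.fixingSubgroup ≤ E.fixingSubgroup := fixingSubgroup_le hu.le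
    have hmul := relIndex_mul_index hWK
    have hW0 := index_ne_zero' M
    have h5 := h M.fixingSubgroup hWK M.fixingSubgroup_isOpen (by
      intro h0
      rw [h0, zero_mul] at hmul
      exact hW0 hmul.symm) (by
      rintro x ((⟨a, ha, rfl⟩ | ⟨a, ha, b, hb, rfl⟩) | ⟨hx, w, hw⟩)
      · exact (IntermediateField.mem_fixingSubgroup_iff _ _).2 fun x hx => hu.exp a ha x hx
      · refine (IntermediateField.mem_fixingSubgroup_iff _ _).2 fun x hx => ?_
        have hb' : b⁻¹ x ∈ M := hu.normal _ (inv_mem hb) x hx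
        have ha' : a⁻¹ (b⁻¹ x) ∈ M := hu.normal _ (inv_mem ha) _ hb'
        have h6 := hu.comm a ha b hb _ ha'
        show ⁅a, b⁆ x = x
        have h7 : ⁅a, b⁆ x = a (b (a⁻¹ (b⁻¹ x))) := rfl
        have h8 : a (a⁻¹ (b⁻¹ x)) = b⁻¹ x := by
          rw [← AlgEquiv.mul_apply, mul_inv_cancel, AlgEquiv.one_apply]
        have h9 : b (b⁻¹ x) = x := by
          rw [← AlgEquiv.mul_apply, mul_inv_cancel, AlgEquiv.one_apply]
        rw [h7, h6, h8, h9]
      · refine (IntermediateField.mem_fixingSubgroup_iff _ _).2 fun y hy => ?_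
        by_cases hP : IsPr w
        · rw [mem_ID hP] at hw
          rcases hw with h | ⟨h, h'⟩
          · exact hu.unram w hP.1 hP.2 x hx h y hy
          · exact hu.split w hP.1 hP.2 h x hx h' y hy
        · rw [not_pr_ID hP, Subgroup.mem_bot] at hw
          rw [hw]
          rfl)
    rw [finrank_eq_fixingSubgroup_index, finrank_eq_fixingSubgroup_index, ← hmul]
    exact Nat.mul_le_mul_right _ h5
  · intro h W hWK hWo hWf hg
    have hmul := relIndex_mul_index hWK
    have hW0 : W.index ≠ 0 := by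
      rw [← hmul]
      exact mul_ne_zero hWf hK0
    have hfix := fix_fixed hWo
    have hEM : E ≤ fixedField W := (le_iff_le _ _).2 hWK
    have hfd := finite_fixed hWo hW0
    have hmem : ∀ x, x ∈ fixedField W ↔ ∀ w ∈ W, w x = x := fun x => mem_fixedField_iff _ _
    have h5 := h (fixedField W) hfd (by
      refine ⟨hEM, ?_, ?_, ?_, ?_, ?_⟩
      · intro σ hσ x hx
        rw [hmem] at hx ⊢
        intro w hw
        have h1 : ⁅σ⁻¹, w⁆ ∈ W := hg (Or.inl (Or.inr ⟨σ⁻¹, inv_mem hσ, w, hWK hw, rfl⟩))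
        have h2 : w (σ x) = σ ((⁅σ⁻¹, w⁆ * w) x) := by
          rw [← AlgEquiv.mul_apply, ← AlgEquiv.mul_apply]
          congr 1
          rw [commutatorElement_def]
          group
        rw [h2, hx _ (W.mul_mem h1 hw)]
      · intro σ hσ τ hτ x hx
        rw [hmem] at hx
        have h1 : ⁅σ⁻¹, τ⁻¹⁆ ∈ W := hg (Or.inl (Or.inr ⟨σ⁻¹, inv_mem hσ, τ⁻¹, inv_mem hτ, rfl⟩))
        have h2 : σ (τ x) = τ (σ (⁅σ⁻¹, τ⁻¹⁆ x)) := by
          rw [← AlgEquiv.mul_apply, ← AlgEquiv.mul_apply, ← AlgEquiv.mul_apply]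
          congr 1
          rw [commutatorElement_def]
          group
        rw [h2, hx _ h1]
      · intro σ hσ x hx
        rw [hmem] at hx
        exact hx _ (hg (Or.inl (Or.inl ⟨σ, hσ, rfl⟩)))
      · intro P hP hP0 σ hσ hi x hx
        rw [hmem] at hx
        exact hx _ (hg (Or.inr ⟨hσ, P, (mem_ID ⟨hP, hP0⟩).2 (Or.inl hi)⟩))
      · intro P hP hP0 hp σ hσ hi x hx
        rw [hmem] at hx
        exact hx _ (hg (Or.inr ⟨hσ, P, (mem_ID ⟨hP, hP0⟩).2 (Or.inr ⟨hp, hi⟩)⟩)))
    rw [finrank_eq_fixingSubgroup_index, finrank_eq_fixingSubgroup_index, hfix, ← hmul] at h5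
    exact Nat.le_of_mul_le_mul_right h5 (Nat.pos_of_ne_zero hK0)

section

variable (p : ℕ) [hp : Fact p.Prime]

/-- the `p`-ranks in the cyclotomic tower of `F` are bounded -/
def MuZ (F : IntermediateField ℚ Qb) : Prop := ∃ C, ∀ m, DegLe p (F ⊔ R p m) C

theorem mu_iff (F : IntermediateField ℚ Qb) [FiniteDimensional ℚ F] :
    Mu0 p (ID p) (fun m => H p m) F.fixingSubgroup ↔ MuZ p F := by
  refine exists_congr fun C => forall_congr' fun m => ?_
  rw [← rankLe_iff, fixingSubgroup_sup, R_fix]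

theorem MuZ.of_le {N F : IntermediateField ℚ Qb} (hN : FiniteDimensional ℚ N)
    (hNn : IsGalois ℚ N) (hF : F ≤ N) (h : MuZ p N) : MuZ p F := by
  have hFd : FiniteDimensional ℚ F :=
    Submodule.finiteDimensional_of_le (S₁ := Subalgebra.toSubmodule F.toSubalgebra)
      (S₂ := Subalgebra.toSubmodule N.toSubalgebra) hF
  rw [← mu_iff] at h ⊢
  have hKn : N.fixingSubgroup.Normal := (InfiniteGalois.normal_iff_isGalois N).2 hNn
  exact Mu0.of_le (fun m => H_open p m) hKn (fixingSubgroup_le hF) N.fixingSubgroup_isOpen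
    (index_ne_zero' N) h

/-- **Detecting subfields.** -/
theorem detect (hp2 : p ≠ 2) (N : IntermediateField ℚ Qb) (hN : FiniteDimensional ℚ N)
    (hNn : IsGalois ℚ N) (𝓔 : Set (IntermediateField ℚ Qb)) (h𝓔 : ∀ E ∈ 𝓔, E ≤ N)
    (hdet : ∀ (S : Type) [AddCommGroup S] [Module (ZMod p) S] [Module.Finite (ZMod p) S]
      (τ : Representation (ZMod p) GQ S), (∀ g ∈ N.fixingSubgroup, ∀ x, τ g x = x) →
      IsSimple τ → ∃ E ∈ 𝓔, ∃ v : S, v ≠ 0 ∧ ∀ g ∈ E.fixingSubgroup, τ g v = v)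
    (hmu : ∀ E ∈ 𝓔, MuZ p E) (F : IntermediateField ℚ Qb) (hF : F ≤ N) :
    MuZ p F := by
  have hfd : ∀ E : IntermediateField ℚ Qb, E ≤ N → FiniteDimensional ℚ E := fun E hE =>
    Submodule.finiteDimensional_of_le (S₁ := Subalgebra.toSubmodule E.toSubalgebra)
      (S₂ := Subalgebra.toSubmodule N.toSubalgebra) hE
  have hFd := hfd F hF
  rw [← mu_iff]
  have hKn : N.fixingSubgroup.Normal := (InfiniteGalois.normal_iff_isGalois N).2 hNn
  have hKo := N.fixingSubgroup_isOpen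
  refine Mu0.of_le (fun m => H_open p m) hKn (fixingSubgroup_le hF) hKo (index_ne_zero' N) ?_
  refine reduction (p := p) (I := ID p) (ID_conj p) (fun m => H_normal p m) (fun m => H_open p m)
    (fun m => H_index_ne p m) hKn hKo (index_ne_zero' N)
    (ramified p hp2 hKo (index_ne_zero' N)) ?_
  intro S _ _ _ τ hτ hs
  obtain ⟨E, hE, v, hv, hfix⟩ := hdet S τ hτ hs
  have hEd := hfd E (h𝓔 E hE)
  exact ⟨E.fixingSubgroup, ⟨fixingSubgroup_le (h𝓔 E hE), (mu_iff p E).2 (hmu E hE)⟩, v, hv, hfix⟩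

/-- every number field is contained in a Galois number field -/
theorem exists_normal (F : IntermediateField ℚ Qb) [FiniteDimensional ℚ F] :
    ∃ N : IntermediateField ℚ Qb, FiniteDimensional ℚ N ∧ IsGalois ℚ N ∧ F ≤ N := by
  have hUf : F.fixingSubgroup.FiniteIndex := ⟨index_ne_zero' F⟩
  set K := F.fixingSubgroup.normalCore with hKdef
  have hKn : K.Normal := normalCore_normal _
  have hKo : IsOpen (K : Set GQ) :=
    isOpen_normalCore F.fixingSubgroup_isOpen (index_ne_zero' F)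
  have hKf : K.index ≠ 0 := by
    have : K.FiniteIndex := F.fixingSubgroup.finiteIndex_normalCore
    exact FiniteIndex.index_ne_zero
  have hfix := fix_fixed hKo
  exact ⟨fixedField K, finite_fixed hKo hKf,
    (InfiniteGalois.normal_iff_isGalois (fixedField K)).1 (by rw [hfix]; exact hKn),
    (le_iff_le _ _).2 (normalCore_le _)⟩

end

end Pool.Agent.K1H70.MU
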