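import Pool.Agent.K1H70.MU.Trans

/-! # The layers of the cyclotomic `ℤ_p`-extension -/

set_option autoImplicit false
set_option linter.all false

namespace Pool.Agent.K1H70.MU

open NumberField Polynomial IntermediateField
open scoped Pointwise
open Pool.Agent.Q60.MU (Qb fix_fixed finite_fixed index_ne_zero')

section

variable (p : ℕ) [hp : Fact p.Prime] (m : ℕ)

instance nz : NeZero (p ^ (m + 1)) := ⟨pow_ne_zero _ hp.out.ne_zero⟩

theorem exists_zt : ∃ ζ : Qb, IsPrimitiveRoot ζ (p ^ (m + 1)) := by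
  have : NeZero ((p ^ (m + 1) : ℕ) : Qb) := ⟨by
    exact_mod_cast pow_ne_zero _ hp.out.ne_zero⟩
  exact HasEnoughRootsOfUnity.exists_primitiveRoot Qb (p ^ (m + 1))

/-- a primitive root of unity of order `p^(m+1)` -/
noncomputable def zt : Qb := (exists_zt p m).choose

theorem zt_spec : IsPrimitiveRoot (zt p m) (p ^ (m + 1)) := (exists_zt p m).choose_spec

/-- the cyclotomic character modulo `p^(m+1)` -/
noncomputable def chi : GQ →* (ZMod (p ^ (m + 1)))ˣ := (zt_spec p m).autToPow ℚ

theorem chi_zt (σ : GQ) : σ (zt p m) = zt p m ^ (chi p m σ : ZMod (p ^ (m + 1))).val :=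
  ((zt_spec p m).autToPow_spec ℚ σ).symm

theorem root_eq {z : Qb} (hz : z ^ p ^ (m + 1) = 1) : ∃ i : ℕ, z = zt p m ^ i := by
  obtain ⟨i, -, hi⟩ := (zt_spec p m).eq_pow_of_pow_eq_one hz
  exact ⟨i, hi.symm⟩

theorem chi_root (σ : GQ) {z : Qb} (hz : z ^ p ^ (m + 1) = 1) :
    σ z = z ^ (chi p m σ : ZMod (p ^ (m + 1))).val := by
  obtain ⟨i, rfl⟩ := root_eq p m hz
  rw [map_pow, chi_zt, ← pow_mul, ← pow_mul, mul_comm]

theorem chi_eq_nat (σ : GQ) (a : ℕ) (h : σ (zt p m) = zt p m ^ a) :
    (chi p m σ : ZMod (p ^ (m + 1))) = a := by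
  rw [chi_zt] at h
  have key : ∀ b : ℕ, zt p m ^ b = zt p m ^ a → b ≡ a [MOD (p ^ (m + 1))] := by
    intro b hb
    have h4 := (zt_spec p m).isUnit_unit (pow_ne_zero _ hp.out.ne_zero)
    have h5 : (((zt_spec p m).isUnit (pow_ne_zero _ hp.out.ne_zero)).unit) ^ b =
        (((zt_spec p m).isUnit (pow_ne_zero _ hp.out.ne_zero)).unit) ^ a := by
      apply Units.ext
      rw [Units.val_pow_eq_pow_val, Units.val_pow_eq_pow_val]
      exact hb
    rw [h4.eq_orderOf]
    exact pow_eq_pow_iff_modEq.1 h5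
  have h2 := key _ h
  have h3 := (ZMod.natCast_eq_natCast_iff _ _ (p ^ (m + 1))).2 h2
  rwa [ZMod.natCast_zmod_val] at h3

/-- the cyclotomic field -/
noncomputable def cyc : IntermediateField ℚ Qb := adjoin ℚ {z : Qb | z ^ p ^ (m + 1) = 1}

theorem cyc_eq : cyc p m = adjoin ℚ {zt p m} := by
  apply le_antisymm
  · unfold cyc
    rw [adjoin_le_iff]
    intro z hz
    obtain ⟨i, rfl⟩ := root_eq p m hz
    exact pow_mem (mem_adjoin_simple_self ℚ _) i
  · rw [adjoin_le_iff, Set.singleton_subset_iff]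
    exact subset_adjoin ℚ _ (zt_spec p m).pow_eq_one

theorem cyc_inst : IsCyclotomicExtension {p ^ (m + 1)} ℚ (cyc p m) := by
  rw [cyc_eq]
  exact (zt_spec p m).intermediateField_adjoin_isCyclotomicExtension ℚ

theorem cyc_fd : FiniteDimensional ℚ (cyc p m) := by
  have := cyc_inst p m
  exact IsCyclotomicExtension.finiteDimensional {p ^ (m + 1)} ℚ _

theorem ker_chi : (chi p m).ker = (cyc p m).fixingSubgroup := by
  ext σ
  rw [MonoidHom.mem_ker]
  constructor
  · intro h
    have h1 : cyc p m ≤ fixedField (Subgroup.zpowers σ) := by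
      unfold cyc
      rw [adjoin_le_iff]
      intro z hz
      rw [SetLike.mem_coe, mem_fixedField_iff]
      intro τ hτ
      obtain ⟨k, rfl⟩ := Subgroup.mem_zpowers_iff.1 hτ
      rw [chi_root p m _ hz, map_zpow, h, one_zpow, Units.val_one]
      obtain ⟨k, hk⟩ : ∃ k, p ^ (m + 1) = k + 2 := ⟨p ^ (m + 1) - 2, by
        have := Nat.pow_le_pow_left hp.out.two_le (m + 1)
        have h2 : 2 ≤ 2 ^ (m + 1) := by
          calc 2 = 2 ^ 1 := rfl
            _ ≤ 2 ^ (m + 1) := Nat.pow_le_pow_right (by norm_num) (by omega)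
        omega⟩
      have h3 : ((1 : ZMod (p ^ (m + 1)))).val = 1 := by
        have : Fact (1 < p ^ (m + 1)) := ⟨by omega⟩
        exact ZMod.val_one _
      rw [h3, pow_one]
    have h2 := (IntermediateField.le_iff_le _ _).1 h1
    exact h2 (Subgroup.mem_zpowers σ)
  · intro h
    have h1 : σ (zt p m) = zt p m ^ 1 := by
      rw [pow_one]
      refine (IntermediateField.mem_fixingSubgroup_iff _ _).1 h _ ?_
      exact subset_adjoin ℚ _ (zt_spec p m).pow_eq_one
    have h2 := chi_eq_nat p m σ 1 h1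
    apply Units.ext
    rw [h2, Nat.cast_one, Units.val_one]

theorem chi_surj : Function.Surjective (chi p m) := by
  intro u
  have h1 := (zt_spec p m).pow_of_coprime _ (ZMod.val_coe_unit_coprime u)
  have hpos : 0 < p ^ (m + 1) := pow_pos hp.out.pos _
  have h2 : IsConjRoot ℚ (zt p m) (zt p m ^ (u : ZMod (p ^ (m + 1))).val) := by
    rw [isConjRoot_def, ← cyclotomic_eq_minpoly_rat (zt_spec p m) hpos,
      ← cyclotomic_eq_minpoly_rat h1 hpos]
  obtain ⟨σ, hσ⟩ := isConjRoot_iff_exists_algEquiv.1 h2.symm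
  refine ⟨σ, ?_⟩
  have h3 := chi_eq_nat p m σ _ hσ
  apply Units.ext
  rw [h3, ZMod.natCast_zmod_val]

/-- the Galois group of the field of algebraic numbers over the `m`-th layer -/
noncomputable def H : Subgroup GQ := ((powMonoidHom (p - 1)).comp (chi p m)).ker

theorem mem_H {σ : GQ} : σ ∈ H p m ↔ chi p m σ ^ (p - 1) = 1 := Iff.rfl

instance H_normal : (H p m).Normal := by
  unfold H
  infer_instance

theorem ker_le_H : (chi p m).ker ≤ H p m := by
  intro σ hσ
  rw [mem_H, (MonoidHom.mem_ker).1 hσ, one_pow]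

theorem H_open : IsOpen (H p m : Set GQ) := by
  have := cyc_fd p m
  refine Subgroup.isOpen_mono (ker_le_H p m) ?_
  rw [ker_chi]
  exact (cyc p m).fixingSubgroup_isOpen

theorem card_units : Nat.card (ZMod (p ^ (m + 1)))ˣ = p ^ m * (p - 1) := by
  rw [Nat.card_eq_fintype_card, ZMod.card_units_eq_totient, Nat.totient_prime_pow_succ hp.out]

theorem H_index : (H p m).index = p ^ m := by
  have h0 : 0 < p - 1 := Nat.sub_pos_of_lt hp.out.one_lt
  set T : Subgroup (ZMod (p ^ (m + 1)))ˣ := (powMonoidHom (p - 1)).ker with hT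
  have h1 : H p m = T.comap (chi p m) := rfl
  rw [h1, Subgroup.index_comap_of_surjective _ (chi_surj p m)]
  have h2 : Nat.card T * T.index = p ^ m * (p - 1) := by rw [T.card_mul_index, card_units]
  -- the order of `T` is prime to `p`
  have h3 : (Nat.card T).Coprime p := by
    rw [Nat.coprime_comm, hp.out.coprime_iff_not_dvd]
    intro h
    obtain ⟨x, hx⟩ := exists_prime_orderOf_dvd_card' p h
    have h4 : (x : (ZMod (p ^ (m + 1)))ˣ) ^ (p - 1) = 1 := x.2
    have h5 : x ^ (p - 1) = 1 := Subtype.ext h4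
    have h6 := orderOf_dvd_of_pow_eq_one h5
    rw [hx] at h6
    have := Nat.le_of_dvd h0 h6
    omega
  have h4 : Nat.card T ∣ p - 1 := by
    have h5 : Nat.card T ∣ p ^ m * (p - 1) := ⟨_, h2.symm⟩
    exact (h3.pow_right m).dvd_of_dvd_mul_left h5
  -- the index is a power of `p`
  have h5 : T.index ∣ p ^ m := by
    have h6 : IsPGroup p ((ZMod (p ^ (m + 1)))ˣ ⧸ T) := by
      intro q
      obtain ⟨u, rfl⟩ := QuotientGroup.mk_surjective q
      refine ⟨m, ?_⟩
      rw [← QuotientGroup.mk_pow, QuotientGroup.eq_one_iff]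
      change (u ^ p ^ m) ^ (p - 1) = 1
      rw [← pow_mul, ← card_units p m]
      exact pow_card_eq_one'
    obtain ⟨k, hk⟩ := (IsPGroup.iff_card).1 h6
    have h7 : T.index = p ^ k := hk
    have h8 : (p ^ k).Coprime (p - 1) := by
      apply Nat.Coprime.pow_left
      rw [hp.out.coprime_iff_not_dvd]
      intro h
      have := Nat.le_of_dvd h0 h
      omega
    rw [h7]
    refine h8.dvd_of_dvd_mul_right ?_
    rw [← h7]
    exact ⟨_, by rw [← h2, mul_comm]⟩
  obtain ⟨a, ha⟩ := h4
  obtain ⟨b, hb⟩ := h5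
  have h6 : Nat.card T * T.index * 1 = Nat.card T * T.index * (a * b) := by
    rw [mul_one]
    calc Nat.card T * T.index = p ^ m * (p - 1) := h2
      _ = T.index * b * (Nat.card T * a) := by rw [← hb, ← ha]
      _ = _ := by ring
  have h7 : 0 < Nat.card T * T.index := by
    rw [h2]; exact Nat.mul_pos (pow_pos hp.out.pos _) h0
  have h8 : a * b = 1 := (Nat.eq_of_mul_eq_mul_left h7 h6).symm
  rw [hb, Nat.eq_one_of_mul_eq_one_left h8, mul_one]

/-- the `m`-th layer -/
noncomputable def R : IntermediateField ℚ Qb := fixedField (H p m)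

theorem R_fix : (R p m).fixingSubgroup = H p m := fix_fixed (H_open p m)

theorem H_index_ne : (H p m).index ≠ 0 := by
  rw [H_index]; exact pow_ne_zero _ hp.out.ne_zero

instance R_fd : FiniteDimensional ℚ (R p m) := finite_fixed (H_open p m) (H_index_ne p m)

theorem R_finrank : Module.finrank ℚ (R p m) = p ^ m := by
  rw [IntermediateField.finrank_eq_fixingSubgroup_index, R_fix, H_index]

theorem R_le : R p m ≤ cyc p m := by
  have h := fixedField_antitone (ker_le_H p m)
  rw [ker_chi, InfiniteGalois.fixedField_fixingSubgroup] at h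
  exact h

/-- uniqueness of the layers -/
theorem layer_eq {E : IntermediateField ℚ Qb} (hE : E ≤ cyc p m)
    (hf : Module.finrank ℚ E = p ^ m) : E = R p m := by
  have hEd : FiniteDimensional ℚ E := FiniteDimensional.of_finrank_pos (by
    rw [hf]; exact pow_pos hp.out.pos _)
  have h1 : (chi p m).ker ≤ E.fixingSubgroup := by
    rw [ker_chi]; exact fixingSubgroup_le hE
  have hi : E.fixingSubgroup.index = p ^ m := by
    rw [← IntermediateField.finrank_eq_fixingSubgroup_index, hf]
  set U : Subgroup (ZMod (p ^ (m + 1)))ˣ := E.fixingSubgroup.map (chi p m) with hU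
  have h2 : U.comap (chi p m) = E.fixingSubgroup := Subgroup.comap_map_eq_self h1
  have h3 : U.index = p ^ m := by
    rw [← hi, ← h2, Subgroup.index_comap_of_surjective _ (chi_surj p m)]
  have h4 : Nat.card U = p - 1 := by
    have h5 := U.card_mul_index
    rw [h3, card_units, mul_comm] at h5
    exact Nat.eq_of_mul_eq_mul_left (pow_pos hp.out.pos m) h5
  have h5 : E.fixingSubgroup ≤ H p m := by
    intro σ hσ
    rw [mem_H]
    have h6 : chi p m σ ∈ U := ⟨σ, hσ, rfl⟩
    have h7 := pow_card_eq_one' (x := (⟨_, h6⟩ : U))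
    rw [h4] at h7
    exact congrArg Subtype.val h7
  have h6 : E.fixingSubgroup = H p m := by
    refine le_antisymm h5 ?_
    have h7 := Subgroup.relIndex_mul_index h5
    rw [hi, H_index] at h7
    have h8 : E.fixingSubgroup.relIndex (H p m) = 1 := by
      have h9 : 0 < p ^ m := pow_pos hp.out.pos _
      exact Nat.eq_of_mul_eq_mul_right h9 (by rw [h7, one_mul])
    exact Subgroup.relIndex_eq_one.1 h8
  rw [← InfiniteGalois.fixedField_fixingSubgroup E, h6]
  rfl

end

end Pool.Agent.K1H70.MU
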