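import Pool.Agent.K1H70.MU.CM

/-!
# The reduction to fields with a real place and CM fields
-/

set_option autoImplicit false
set_option linter.all false

namespace Pool.Agent.K1H70.MU

open Module NumberField IntermediateField
open scoped ComplexConjugate
open Pool.Agent.Q60.MU (Qb fix_fixed finite_fixed index_ne_zero' RankLe Mu0 IsSimple stab
  exists_vec_P)

section

variable {p : ℕ} [hp : Fact p.Prime] {S : Type} [AddCommGroup S] [Module (ZMod p) S]
  {τ : Representation (ZMod p) GQ S} {N : IntermediateField ℚ Qb}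

theorem mem_stab {v : S} {g : GQ} : g ∈ stab τ v ↔ τ g v = v := Iff.rfl

theorem stab_open [FiniteDimensional ℚ N] (hτ : ∀ g ∈ N.fixingSubgroup, ∀ x, τ g x = x) (v : S) :
    IsOpen (stab τ v : Set GQ) := by
  have hle : N.fixingSubgroup ≤ stab τ v := fun g hg => hτ g hg v
  exact Subgroup.isOpen_mono hle N.fixingSubgroup_isOpen

theorem stab_fix [FiniteDimensional ℚ N] (hτ : ∀ g ∈ N.fixingSubgroup, ∀ x, τ g x = x) (v : S) :
    (fixedField (stab τ v)).fixingSubgroup = stab τ v := fix_fixed (stab_open hτ v)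

theorem stab_le [FiniteDimensional ℚ N] (hτ : ∀ g ∈ N.fixingSubgroup, ∀ x, τ g x = x) (v : S) :
    fixedField (stab τ v) ≤ N := by
  have hle : N.fixingSubgroup ≤ stab τ v := fun g hg => hτ g hg v
  have h := fixedField_antitone hle
  rwa [InfiniteGalois.fixedField_fixingSubgroup] at h

theorem fd_of_le [FiniteDimensional ℚ N] {E : IntermediateField ℚ Qb} (hE : E ≤ N) :
    FiniteDimensional ℚ E :=
  Submodule.finiteDimensional_of_le (S₁ := Subalgebra.toSubmodule E.toSubalgebra)
    (S₂ := Subalgebra.toSubmodule N.toSubalgebra) hE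

/-- an element of order `2` has a fixed vector or acts as `-1` -/
theorem dichotomy (hτ : ∀ g ∈ N.fixingSubgroup, ∀ x, τ g x = x) {c : GQ}
    (hc : ∀ x ∈ N, c (c x) = x) : (∃ v : S, v ≠ 0 ∧ τ c v = v) ∨ ∀ v, τ c v = -v := by
  by_cases h : ∃ v : S, v ≠ 0 ∧ τ c v = v
  · exact Or.inl h
  · right
    intro v
    have hcc : c * c ∈ N.fixingSubgroup := by
      rw [IntermediateField.mem_fixingSubgroup_iff]
      intro x hx
      exact hc x hx
    have h1 : τ c (τ c v) = v := by
      rw [← Module.End.mul_apply, ← map_mul]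
      exact hτ _ hcc v
    have h2 : τ c (τ c v + v) = τ c v + v := by rw [map_add, h1, add_comm]
    by_contra hne
    refine h ⟨τ c v + v, ?_, h2⟩
    intro h3
    exact hne (eq_neg_of_add_eq_zero_left h3)

theorem neg_comm {c : GQ} (hc : ∀ v : S, τ c v = -v) (g : GQ) (v : S) :
    τ (g * c * g⁻¹ * c⁻¹) v = v := by
  have h1 : τ c⁻¹ v = -v := by
    have h2 : v = τ c (-v) := by rw [hc, neg_neg]
    conv_lhs => rw [h2]
    rw [← Module.End.mul_apply, ← map_mul, inv_mul_cancel, map_one]
    rfl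
  rw [map_mul, map_mul, map_mul, Module.End.mul_apply, Module.End.mul_apply, Module.End.mul_apply,
    h1, map_neg, hc, neg_neg, ← Module.End.mul_apply, ← map_mul, mul_inv_cancel, map_one]
  rfl

end

section

variable (p : ℕ) [hp : Fact p.Prime]

/-- the elements of `N` which are fixed by `c` -/
noncomputable def fixedBy (N : IntermediateField ℚ Qb) (c : GQ) : IntermediateField ℚ Qb :=
  N ⊓ fixedField (Subgroup.zpowers c)

/-- the elements of `N` which are fixed by all the `g c g⁻¹ c⁻¹` -/
noncomputable def centralPart (N : IntermediateField ℚ Qb) (c : GQ) : IntermediateField ℚ Qb :=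
  N ⊓ fixedField (Subgroup.closure {x | ∃ g : GQ, x = g * c * g⁻¹ * c⁻¹})

theorem mem_fixedBy {N : IntermediateField ℚ Qb} {c : GQ} {x : Qb} (hx : x ∈ fixedBy N c) :
    c x = x :=
  (mem_fixedField_iff _ _).1 (show x ∈ fixedField (Subgroup.zpowers c) from hx.2) c
    (Subgroup.mem_zpowers c)

theorem mem_centralPart {N : IntermediateField ℚ Qb} {c : GQ} {x : Qb} (hx : x ∈ centralPart N c)
    (g : GQ) : (g * c * g⁻¹ * c⁻¹) x = x :=
  (mem_fixedField_iff _ _).1 (show x ∈ fixedField (Subgroup.closure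
    {x | ∃ g : GQ, x = g * c * g⁻¹ * c⁻¹}) from hx.2) _ (Subgroup.subset_closure ⟨g, rfl⟩)

/-- **involutions** -/
theorem involution (hp2 : p ≠ 2) (N : IntermediateField ℚ Qb) (hN : FiniteDimensional ℚ N)
    (hNn : IsGalois ℚ N) (c : GQ) (hc : ∀ x ∈ N, c (c x) = x) :
    MuZ p N ↔ MuZ p (fixedBy N c) ∧ MuZ p (centralPart N c) := by
  constructor
  · exact fun h => ⟨h.of_le p hN hNn inf_le_left, h.of_le p hN hNn inf_le_left⟩
  · rintro ⟨h1, h2⟩
    refine detect p hp2 N hN hNn {fixedBy N c, centralPart N c} ?_ ?_ ?_ N le_rfl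
    · rintro E (rfl | rfl)
      · exact inf_le_left
      · exact inf_le_left
    · intro S _ _ _ τ hτ hs
      rcases dichotomy hτ hc with ⟨v, hv, hcv⟩ | hneg
      · refine ⟨fixedBy N c, Or.inl rfl, v, hv, ?_⟩
        have h3 : fixedField (stab τ v) ≤ fixedBy N c := by
          refine le_inf (stab_le hτ v) (fixedField_antitone ?_)
          rw [Subgroup.zpowers_le]
          exact hcv
        have h4 := fixingSubgroup_le h3
        rw [stab_fix hτ v] at h4
        exact fun g hg => h4 hg
      · have hnt : Nontrivial S := hs.1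
        obtain ⟨v, hv⟩ := exists_ne (0 : S)
        refine ⟨centralPart N c, Or.inr rfl, v, hv, ?_⟩
        have h3 : fixedField (stab τ v) ≤ centralPart N c := by
          refine le_inf (stab_le hτ v) (fixedField_antitone ?_)
          rw [Subgroup.closure_le]
          rintro _ ⟨g, rfl⟩
          exact neg_comm hneg g v
        have h4 := fixingSubgroup_le h3
        rw [stab_fix hτ v] at h4
        exact fun g hg => h4 hg
    · rintro E (rfl | rfl)
      · exact h1
      · exact h2

theorem index_stab {S : Type} [AddCommGroup S] [Module (ZMod p) S]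
    {τ : Representation (ZMod p) GQ S} {N : IntermediateField ℚ Qb} [FiniteDimensional ℚ N]
    (hτ : ∀ g ∈ N.fixingSubgroup, ∀ x, τ g x = x) {v : S} {P : Subgroup GQ} (hP : P ≤ stab τ v)
    (hPp : ¬ p ∣ P.index) : ¬ p ∣ finrank ℚ (fixedField (stab τ v)) := by
  rw [finrank_eq_fixingSubgroup_index, stab_fix hτ v]
  exact fun h1 => hPp (h1.trans (Subgroup.index_dvd_of_le hP))

/-- fields of degree prime to `p` -/
theorem prime_to_p (hp2 : p ≠ 2) (h : ∀ F : IntermediateField ℚ Qb, FiniteDimensional ℚ F →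
    ¬ p ∣ finrank ℚ F → MuZ p F) (F : IntermediateField ℚ Qb) (hF : FiniteDimensional ℚ F) :
    MuZ p F := by
  obtain ⟨N, hN, hNn, hFN⟩ := exists_normal F
  refine detect p hp2 N hN hNn {E | E ≤ N ∧ MuZ p E} (fun E hE => hE.1) ?_ (fun E hE => hE.2) F hFN
  intro S _ _ _ τ hτ hs
  have hnt : Nontrivial S := hs.1
  obtain ⟨v, hv, P, hP, hPp⟩ := exists_vec_P ((InfiniteGalois.normal_iff_isGalois N).2 hNn)
    (index_ne_zero' N) τ hτ
  have hle := stab_le hτ v
  refine ⟨fixedField (stab τ v), ⟨hle, h _ (fd_of_le hle) (index_stab p hτ hP hPp)⟩, v, hv, ?_⟩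
  rw [stab_fix hτ v]
  exact fun g hg => hg

/-- fields with a real place and CM fields of degree prime to `p` -/
theorem real_or_cm (hp2 : p ≠ 2) (h : ∀ F : IntermediateField ℚ Qb, FiniteDimensional ℚ F →
    (Nonempty (F →+* ℝ) ∨ (IsCMField F ∧ ¬ p ∣ finrank ℚ F)) → MuZ p F)
    (F : IntermediateField ℚ Qb) (hF : FiniteDimensional ℚ F) : MuZ p F := by
  obtain ⟨N, hN, hNn, hFN⟩ := exists_normal F
  obtain ⟨φ, c, hcc⟩ := exists_cc
  refine detect p hp2 N hN hNn {E | E ≤ N ∧ MuZ p E} (fun E hE => hE.1) ?_ (fun E hE => hE.2) F hFN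
  intro S _ _ _ τ hτ hs
  have hnt : Nontrivial S := hs.1
  rcases dichotomy hτ (fun x _ => hcc.sq x) with ⟨v, hv, hcv⟩ | hneg
  · have hle := stab_le hτ v
    refine ⟨fixedField (stab τ v), ⟨hle, h _ (fd_of_le hle) (Or.inl ?_)⟩, v, hv, ?_⟩
    · refine real_place hcc fun x hx => ?_
      exact (mem_fixedField_iff _ _).1 hx c hcv
    · rw [stab_fix hτ v]
      exact fun g hg => hg
  · obtain ⟨v, hv, P, hP, hPp⟩ := exists_vec_P ((InfiniteGalois.normal_iff_isGalois N).2 hNn)
      (index_ne_zero' N) τ hτ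
    have hle := stab_le hτ v
    refine ⟨fixedField (stab τ v), ⟨hle, h _ (fd_of_le hle) (Or.inr ⟨?_,
      index_stab p hτ hP hPp⟩)⟩, v, hv, ?_⟩
    · have h1 : ∃ x ∈ fixedField (stab τ v), c x ≠ x := by
        by_contra hcon
        push Not at hcon
        have h2 : c ∈ (fixedField (stab τ v)).fixingSubgroup := by
          rw [IntermediateField.mem_fixingSubgroup_iff]
          exact hcon
        rw [stab_fix hτ v, mem_stab, hneg] at h2
        have h3 : (2 : ZMod p) • v = 0 := by
          rw [two_smul]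
          nth_rw 1 [← h2]
          exact neg_add_cancel v
        rcases smul_eq_zero.1 h3 with h4 | h4
        · have h5 : ((2 : ℕ) : ZMod p) = 0 := by exact_mod_cast h4
          rw [ZMod.natCast_eq_zero_iff] at h5
          exact hp2 ((Nat.prime_dvd_prime_iff_eq hp.out Nat.prime_two).1 h5)
        · exact hv h4
      obtain ⟨x₀, hx₀, hne⟩ := h1
      refine cm_field hcc (fd_of_le hle) (fun g x hx => ?_) hx₀ hne
      exact (mem_fixedField_iff _ _).1 hx _ (neg_comm hneg g v)
    · rw [stab_fix hτ v]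
      exact fun g hg => hg

end

end Pool.Agent.K1H70.MU
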