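import Pool.Agent.Q60.MU.Fields

/-! # Primes of the field of algebraic numbers as prime ideals; inertia and decomposition groups -/

set_option autoImplicit false

namespace Pool.Agent.K1H70.MU

open NumberField Polynomial
open scoped Pointwise
open Pool.Agent.Q60.MU (Qb)

/-- the absolute Galois group of the rational numbers -/
abbrev GQ := Gal(Qb/ℚ)

theorem coe_smul (σ : GQ) (x : 𝓞 Qb) : ((σ • x : 𝓞 Qb) : Qb) = σ (x : Qb) := rfl

/-- a nonzero prime ideal of the ring of algebraic integers -/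
def IsPr (P : Ideal (𝓞 Qb)) : Prop := P.IsPrime ∧ P ≠ ⊥

theorem IsPr.smul {P : Ideal (𝓞 Qb)} (h : IsPr P) (g : GQ) : IsPr (g • P) := by
  refine ⟨(Ideal.IsPrime.smul_iff g).2 h.1, fun h1 => h.2 ?_⟩
  rw [eq_bot_iff]
  intro x hx
  have h2 : g • x ∈ g • P := Ideal.smul_mem_pointwise_smul_iff.2 hx
  rw [h1, Ideal.mem_bot] at h2
  rw [Ideal.mem_bot]
  have h3 : g⁻¹ • (g • x) = g⁻¹ • (0 : 𝓞 Qb) := by rw [h2]
  rwa [inv_smul_smul, smul_zero] at h3

theorem isPr_smul {P : Ideal (𝓞 Qb)} (g : GQ) : IsPr (g • P) ↔ IsPr P := by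
  refine ⟨fun h => ?_, fun h => h.smul g⟩
  have h1 := h.smul g⁻¹
  rwa [inv_smul_smul] at h1

open Classical in
/-- the decomposition group if `P` is above `p`, and the inertia group otherwise -/
noncomputable def ID (p : ℕ) (P : Ideal (𝓞 Qb)) : Subgroup GQ :=
  if IsPr P then (if (p : 𝓞 Qb) ∈ P then MulAction.stabilizer GQ P else P.inertia GQ) else ⊥

theorem mem_ID {p : ℕ} {P : Ideal (𝓞 Qb)} (hP : IsPr P) {σ : GQ} :
    σ ∈ ID p P ↔ (∀ x, σ • x - x ∈ P) ∨ ((p : 𝓞 Qb) ∈ P ∧ σ • P = P) := by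
  unfold ID
  rw [if_pos hP]
  split_ifs with h
  · rw [MulAction.mem_stabilizer_iff]
    refine ⟨fun h1 => Or.inr ⟨h, h1⟩, ?_⟩
    rintro (h1 | h1)
    · exact Ideal.inertia_le_stabilizer (M := GQ) P (show σ ∈ P.inertia GQ from h1)
    · exact h1.2
  · refine ⟨fun h1 => Or.inl h1, ?_⟩
    rintro (h1 | h1)
    · exact h1
    · exact absurd h1.1 h

theorem not_pr_ID {p : ℕ} {P : Ideal (𝓞 Qb)} (hP : ¬ IsPr P) : ID p P = ⊥ := by
  unfold ID
  rw [if_neg hP]

theorem ID_conj (p : ℕ) (g : GQ) (P : Ideal (𝓞 Qb)) :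
    ∀ σ ∈ ID p P, g * σ * g⁻¹ ∈ ID p (g • P) := by
  intro σ hσ
  by_cases hP : IsPr P
  · rw [mem_ID (hP.smul g)]
    rw [mem_ID hP] at hσ
    rcases hσ with h | ⟨h1, h2⟩
    · left
      intro x
      have h3 := h (g⁻¹ • x)
      have h4 : (g * σ * g⁻¹) • x - x = g • (σ • (g⁻¹ • x) - g⁻¹ • x) := by
        rw [smul_sub, smul_inv_smul, mul_smul, mul_smul]
      rw [h4]
      exact Ideal.smul_mem_pointwise_smul_iff.2 h3
    · right
      refine ⟨?_, by rw [mul_smul, mul_smul, inv_smul_smul, h2]⟩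
      have h3 : g • (p : 𝓞 Qb) ∈ g • P := Ideal.smul_mem_pointwise_smul_iff.2 h1
      have h4 : g • (p : 𝓞 Qb) = (p : 𝓞 Qb) := by
        apply RingOfIntegers.ext
        rw [coe_smul]
        push_cast
        exact map_natCast g p
      rwa [h4] at h3
  · rw [not_pr_ID hP, Subgroup.mem_bot] at hσ
    rw [hσ, mul_one, mul_inv_cancel]
    exact one_mem _

theorem halg (x : Qb) : IsAlgebraic ℤ x :=
  (IsFractionRing.isAlgebraic_iff ℤ ℚ Qb).2 ((AlgebraicClosure.isAlgebraic ℚ).isAlgebraic x)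

/-- **Only finitely many primes ramify.** -/
theorem exists_bad (N : IntermediateField ℚ Qb) [FiniteDimensional ℚ N] :
    ∃ c : ℕ, c ≠ 0 ∧ ∀ P : Ideal (𝓞 Qb), ∀ σ : GQ, (∀ x, σ • x - x ∈ P) →
      σ ∉ N.fixingSubgroup → (c : 𝓞 Qb) ∈ P := by
  obtain ⟨α, hα⟩ := Field.exists_primitive_element ℚ N
  obtain ⟨y, hy0, hyi⟩ := (halg (α : Qb)).exists_integral_multiple
  set β : Qb := y • (α : Qb) with hβ
  have hσ : ∀ σ : GQ, σ β = β → σ ∈ N.fixingSubgroup := by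
    intro σ h
    have h1 : σ (α : Qb) = α := by
      rw [hβ, map_zsmul] at h
      exact smul_right_injective _ hy0 h
    rw [IntermediateField.mem_fixingSubgroup_iff]
    intro x hx
    have h2 : (⟨x, hx⟩ : N) ∈ IntermediateField.adjoin ℚ {α} := by
      rw [hα]
      exact IntermediateField.mem_top
    obtain ⟨r, s, hrs⟩ := (IntermediateField.mem_adjoin_simple_iff ℚ _).1 h2
    have h3 : x = aeval (α : Qb) r / aeval (α : Qb) s := by
      have h4 := congrArg N.val hrs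
      rw [map_div₀, ← aeval_algHom_apply, ← aeval_algHom_apply] at h4
      exact h4
    have h4 : ∀ q : ℚ[X], σ (aeval (α : Qb) q) = aeval (α : Qb) q := by
      intro q
      have h5 := aeval_algHom_apply (σ : Qb →ₐ[ℚ] Qb) (α : Qb) q
      have h6 : (σ : Qb →ₐ[ℚ] Qb) (α : Qb) = α := h1
      rw [h6] at h5
      exact h5.symm
    rw [h3, map_div₀, h4, h4]
  set F := minpoly ℤ β with hFdef
  have hF : F.map (algebraMap ℤ ℚ) = minpoly ℚ β :=
    (minpoly.isIntegrallyClosed_eq_field_fractions' ℚ hyi).symm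
  set D : Qb := aeval β (derivative F) with hD
  have hD0 : D ≠ 0 := by
    have h1 : D = aeval β (derivative (minpoly ℚ β)) := by
      rw [← hF, derivative_map, aeval_map_algebraMap]
    rw [h1]
    have h2 : IsIntegral ℚ β := hyi.tower_top
    exact (minpoly.irreducible h2).separable.aeval_derivative_ne_zero (minpoly.aeval _ _)
  obtain ⟨c, hc0, hci⟩ := (halg D⁻¹).exists_integral_multiple
  refine ⟨c.natAbs, Int.natAbs_ne_zero.2 hc0, fun P σ hσP hσN => ?_⟩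
  let b : 𝓞 Qb := ⟨β, hyi⟩
  have hb : (b : Qb) = β := rfl
  set h : 𝓞 Qb := σ • b - b with hh
  have hhP : h ∈ P := hσP b
  have hh0 : h ≠ 0 := by
    intro h1
    apply hσN
    apply hσ
    have h2 := congrArg (fun z : 𝓞 Qb => (z : Qb)) (sub_eq_zero.1 h1)
    exact h2
  have hcoe : ∀ (q : ℤ[X]) (x : 𝓞 Qb), (((q.map (Int.castRingHom (𝓞 Qb))).eval x : 𝓞 Qb) : Qb) =
      aeval (x : Qb) q := by
    intro q x
    rw [eval_map, aeval_def]
    show algebraMap (𝓞 Qb) Qb (eval₂ _ x q) = _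
    rw [hom_eval₂]
    congr 1
  obtain ⟨k, hk⟩ := binomExpansion (F.map (Int.castRingHom (𝓞 Qb))) b h
  have h1 : (F.map (Int.castRingHom (𝓞 Qb))).eval b = 0 := by
    apply RingOfIntegers.ext
    rw [hcoe, hb]
    exact (minpoly.aeval ℤ β).trans (map_zero (algebraMap (𝓞 Qb) Qb)).symm
  have h2 : (F.map (Int.castRingHom (𝓞 Qb))).eval (b + h) = 0 := by
    apply RingOfIntegers.ext
    have h3 : b + h = σ • b := by rw [hh]; ring
    rw [h3, hcoe, coe_smul, hb]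
    have h4 := aeval_algHom_apply ((σ : Qb →ₐ[ℚ] Qb).restrictScalars ℤ) β F
    have h5 : aeval β F = 0 := minpoly.aeval ℤ β
    rw [h5, map_zero] at h4
    exact h4.trans (map_zero (algebraMap (𝓞 Qb) Qb)).symm
  rw [h1, h2, zero_add] at hk
  set d : 𝓞 Qb := (derivative (F.map (Int.castRingHom (𝓞 Qb)))).eval b with hd
  have hdD : (d : Qb) = D := by
    rw [hd, derivative_map, hcoe, hb]
  have h5 : d = h * (-k) := by
    have h6 : h * (d + k * h) = 0 := by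
      rw [hk]
      ring
    have h7 := (mul_eq_zero.1 h6).resolve_left hh0
    linear_combination h7
  have hdP : d ∈ P := by
    rw [h5]
    exact Ideal.mul_mem_right _ _ hhP
  have hcP : ((c : ℤ) : 𝓞 Qb) ∈ P := by
    obtain ⟨u, hu⟩ : ∃ u : 𝓞 Qb, (u : Qb) = c • D⁻¹ := ⟨⟨c • D⁻¹, hci⟩, rfl⟩
    have h1 : ((c : ℤ) : 𝓞 Qb) = d * u := by
      apply RingOfIntegers.ext
      have e1 : (((c : ℤ) : 𝓞 Qb) : Qb) = (c : Qb) := map_intCast (algebraMap (𝓞 Qb) Qb) c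
      have e2 : ((d * u : 𝓞 Qb) : Qb) = (d : Qb) * (u : Qb) := map_mul (algebraMap (𝓞 Qb) Qb) d u
      refine e1.trans (Eq.trans ?_ e2.symm)
      rw [hdD, hu, zsmul_eq_mul]
      field_simp
    rw [h1]
    exact Ideal.mul_mem_right _ _ hdP
  rcases Int.natAbs_eq c with h | h
  · have h1 : ((c : ℤ) : 𝓞 Qb) = ((c.natAbs : ℕ) : 𝓞 Qb) := by
      have h2 := congrArg (Int.cast : ℤ → 𝓞 Qb) h
      rwa [Int.cast_natCast] at h2
    rw [← h1]
    exact hcP
  · have h1 : ((c : ℤ) : 𝓞 Qb) = -((c.natAbs : ℕ) : 𝓞 Qb) := by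
      have h2 := congrArg (Int.cast : ℤ → 𝓞 Qb) h
      rwa [Int.cast_neg, Int.cast_natCast] at h2
    have h2 : ((c.natAbs : ℕ) : 𝓞 Qb) = -((c : ℤ) : 𝓞 Qb) := by
      rw [h1, neg_neg]
    rw [h2]
    exact neg_mem hcP

theorem exists_prime {P : Ideal (𝓞 Qb)} (hP : P.IsPrime) {c : ℕ} (hc : c ≠ 0)
    (h : (c : 𝓞 Qb) ∈ P) : ∃ ℓ ∈ c.primeFactors, (ℓ : 𝓞 Qb) ∈ P := by
  induction c using Nat.strong_induction_on with
  | _ c ih =>
    by_cases h1 : c = 1
    · exfalso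
      rw [h1, Nat.cast_one] at h
      exact hP.ne_top ((Ideal.eq_top_iff_one P).2 h)
    have hp := Nat.minFac_prime h1
    obtain ⟨d, hd⟩ := Nat.minFac_dvd c
    have hd0 : d ≠ 0 := by
      rintro rfl
      rw [mul_zero] at hd
      exact hc hd
    have hdc : d < c := by
      conv_rhs => rw [hd]
      exact lt_mul_of_one_lt_left (Nat.pos_of_ne_zero hd0) hp.one_lt
    rw [hd, Nat.cast_mul] at h
    rcases hP.mem_or_mem h with h2 | h2
    · exact ⟨c.minFac, Nat.mem_primeFactors.2 ⟨hp, Nat.minFac_dvd c, hc⟩, h2⟩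
    · obtain ⟨ℓ, hℓ, hℓA⟩ := ih d hdc hd0 h2
      refine ⟨ℓ, Nat.mem_primeFactors.2 ⟨Nat.prime_of_mem_primeFactors hℓ, ?_, hc⟩, hℓA⟩
      exact (Nat.dvd_of_mem_primeFactors hℓ).trans ⟨_, by rw [mul_comm]; exact hd⟩

end Pool.Agent.K1H70.MU
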