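import Pool.Agent.K1H70.MU.Main

/-!
# The number of real embeddings
-/

set_option autoImplicit false
set_option linter.all false

namespace Pool.Agent.K1H70.MU

open Module NumberField IntermediateField
open scoped ComplexConjugate
open Pool.Agent.Q60.MU (Qb fix_fixed finite_fixed index_ne_zero' RankLe Mu0 IsSimple stab
  exists_vec_P)

section

variable {p : ℕ} [hp : Fact p.Prime] {S : Type} [AddCommGroup S] [Module (ZMod p) S]
  {τ : Representation (ZMod p) GQ S} {N : IntermediateField ℚ Qb}
  {φ : Qb →+* ℂ} {c : GQ}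

/-- the vectors of the orbit of `v` which are fixed by `c` -/
def orbC (τ : Representation (ZMod p) GQ S) (c : GQ) (v : S) : Set S :=
  {w | τ c w = w ∧ ∃ g : GQ, w = τ g v}

theorem mul_apply' (g h : GQ) (v : S) : τ (g * h) v = τ g (τ h v) := by
  rw [map_mul, Module.End.mul_apply]

theorem agree_iff [FiniteDimensional ℚ N] (hτ : ∀ g ∈ N.fixingSubgroup, ∀ x, τ g x = x) (v : S)
    (g g' : GQ) : (∀ x ∈ fixedField (stab τ v), g x = g' x) ↔ τ g v = τ g' v := by
  have h1 : (∀ x ∈ fixedField (stab τ v), g x = g' x) ↔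
      g⁻¹ * g' ∈ (fixedField (stab τ v)).fixingSubgroup := by
    rw [IntermediateField.mem_fixingSubgroup_iff]
    refine forall_congr' fun x => forall_congr' fun _ => ?_
    constructor
    · intro h
      rw [AlgEquiv.mul_apply, ← h, ← AlgEquiv.mul_apply, inv_mul_cancel, AlgEquiv.one_apply]
    · intro h
      have h2 := congrArg g h
      rw [← AlgEquiv.mul_apply, mul_inv_cancel_left] at h2
      exact h2.symm
  rw [h1, stab_fix hτ v, mem_stab, mul_apply']
  constructor
  · intro h
    have h2 := congrArg (τ g) h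
    rw [← mul_apply', mul_inv_cancel, map_one] at h2
    exact h2.symm
  · intro h
    rw [← h, ← mul_apply', inv_mul_cancel, map_one]
    rfl

/-- the real embeddings of `ℚ(v)` correspond to the vectors in the orbit of `v` which are fixed
by the complex conjugation -/
theorem card_real (h : IsCC φ c) [FiniteDimensional ℚ N]
    (hτ : ∀ g ∈ N.fixingSubgroup, ∀ x, τ g x = x) (v : S) :
    Nat.card (fixedField (stab τ v) →+* ℝ) = Nat.card (orbC τ c v) := by
  have key : ∀ ψ : fixedField (stab τ v) →+* ℝ, ∃ g : GQ, (∀ x : fixedField (stab τ v),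
      ((ψ x : ℝ) : ℂ) = φ (g x)) ∧ τ c (τ g v) = τ g v := by
    intro ψ
    obtain ⟨g, hg⟩ := ext_emb φ (Complex.ofRealHom.comp ψ)
    refine ⟨g, hg, ?_⟩
    rw [← mul_apply', ← agree_iff hτ]
    intro x hx
    apply φ.injective
    rw [AlgEquiv.mul_apply, h]
    have h1 := hg ⟨x, hx⟩
    have h2 : φ (g x) = ((ψ ⟨x, hx⟩ : ℝ) : ℂ) := h1.symm
    rw [h2, Complex.conj_ofReal]
  choose g hg hgc using key
  refine Nat.card_eq_of_bijective (fun ψ => (⟨τ (g ψ) v, hgc ψ, g ψ, rfl⟩ : orbC τ c v)) ⟨?_, ?_⟩
  · intro ψ ψ' heq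
    have h1 := (agree_iff hτ v _ _).2 (congrArg Subtype.val heq)
    ext x
    have h2 := (hg ψ x).trans ((congrArg φ (h1 x x.2)).trans (hg ψ' x).symm)
    exact_mod_cast h2
  · rintro ⟨w, hw, g', rfl⟩
    have h1 := (agree_iff hτ v (c * g') g').2 (by rw [mul_apply']; exact hw)
    have h2 : ComplexEmbedding.IsReal ((φ.comp (g' : Qb →+* Qb)).comp
        (algebraMap (fixedField (stab τ v)) Qb)) := by
      rw [ComplexEmbedding.isReal_iff]
      ext x
      have h3 := h (g' x)
      have h4 := h1 x x.2
      rw [AlgEquiv.mul_apply] at h4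
      rw [h4] at h3
      exact h3.symm
    refine ⟨h2.embedding, Subtype.ext ?_⟩
    show τ (g h2.embedding) v = τ g' v
    rw [← agree_iff hτ]
    intro x hx
    apply φ.injective
    have h5 := hg h2.embedding ⟨x, hx⟩
    have h6 := ComplexEmbedding.IsReal.coe_embedding_apply h2 ⟨x, hx⟩
    have h7 : φ (g h2.embedding x) = (((h2.embedding ⟨x, hx⟩ : ℝ)) : ℂ) := h5.symm
    rw [h7, h6]
    rfl

/-- among the vectors fixed by `c` there is a nonzero vector such that the number of real
embeddings of `ℚ(v)` is prime to `p` -/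
theorem exists_prime_real [Module.Finite (ZMod p) S] {v₀ : S} (hv₀ : v₀ ≠ 0)
    (hc₀ : τ c v₀ = v₀) : ∃ v : S, v ≠ 0 ∧ ¬ p ∣ Nat.card (orbC τ c v) := by
  classical
  have hfS : Finite S := Module.finite_of_finite (ZMod p)
  have hft : Fintype S := Fintype.ofFinite S
  let W : Submodule (ZMod p) S := LinearMap.ker (τ c - 1)
  have hW : ∀ w : S, w ∈ W ↔ τ c w = w := by
    intro w
    rw [LinearMap.mem_ker, LinearMap.sub_apply, sub_eq_zero]
    rfl
  by_contra hcon
  push Not at hcon
  -- all the orbits have an intersection with `W` of order divisible by `p`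
  have hcardW : p ∣ Nat.card W := by
    have h4 := Module.natCard_eq_pow_finrank (K := ZMod p) (V := W)
    rw [Nat.card_zmod] at h4
    rw [h4]
    have hnt : Nontrivial W := ⟨⟨⟨v₀, (hW v₀).2 hc₀⟩, 0, fun h => hv₀ (congrArg Subtype.val h)⟩⟩
    exact dvd_pow_self p (Module.finrank_pos (R := ZMod p) (M := W)).ne'
  set X : Finset S := Finset.univ.filter fun w => τ c w = w ∧ w ≠ 0 with hX
  have hXc : X.card + 1 = Nat.card W := by
    have h1 : Nat.card W = (Finset.univ.filter fun w : S => τ c w = w).card := by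
      rw [Nat.card_eq_fintype_card, Fintype.card_subtype]
      congr 1
      ext w
      simp only [Finset.mem_filter, Finset.mem_univ, true_and]
      exact hW w
    rw [h1]
    have h2 : (Finset.univ.filter fun w : S => τ c w = w) = insert 0 X := by
      ext w
      simp only [Finset.mem_filter, Finset.mem_univ, true_and, hX, Finset.mem_insert]
      constructor
      · intro h
        by_cases hw : w = 0
        · exact Or.inl hw
        · exact Or.inr ⟨h, hw⟩
      · rintro (rfl | h)
        · exact map_zero _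
        · exact h.1
    rw [h2, Finset.card_insert_of_notMem]
    rw [hX, Finset.mem_filter]
    exact fun h => h.2.2 rfl
  have hdvd : p ∣ X.card := by
    let f : S → Set S := fun w => orbC τ c w
    have hsum := Finset.card_eq_sum_card_image f X
    rw [hsum]
    refine Finset.dvd_sum fun O hO => ?_
    obtain ⟨v, hv, rfl⟩ := Finset.mem_image.1 hO
    have hv' : τ c v = v ∧ v ≠ 0 := (Finset.mem_filter.1 hv).2
    have h1 : (X.filter fun w => f w = f v).card = Nat.card (orbC τ c v) := by
      have h2 : ((X.filter fun w => f w = f v : Finset S) : Set S) = orbC τ c v := by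
        ext w
        rw [Finset.mem_coe, Finset.mem_filter, hX, Finset.mem_filter]
        constructor
        · rintro ⟨⟨-, hw1, hw2⟩, hw3⟩
          have h3 : w ∈ f w := ⟨hw1, 1, by rw [map_one]; rfl⟩
          rw [hw3] at h3
          exact h3
        · rintro ⟨hw1, g, rfl⟩
          refine ⟨⟨Finset.mem_univ _, hw1, fun h0 => hv'.2 ?_⟩, ?_⟩
          · have h3 := congrArg (τ g⁻¹) h0
            rw [← mul_apply', inv_mul_cancel, map_one, map_zero] at h3
            exact h3
          · ext u
            constructor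
            · rintro ⟨hu, g', rfl⟩
              exact ⟨hu, g' * g, by rw [mul_apply']⟩
            · rintro ⟨hu, g', rfl⟩
              exact ⟨hu, g' * g⁻¹, by rw [← mul_apply', inv_mul_cancel_right]⟩
      rw [← h2, ← Set.ncard_coe_finset, ← Nat.card_coe_set_eq]
    rw [h1]
    exact hcon v hv'.2
  have h1 : p ∣ 1 := by
    have h2 : p ∣ X.card + 1 := hXc ▸ hcardW
    exact (Nat.dvd_add_right hdvd).1 h2
  exact hp.out.one_lt.ne' (Nat.dvd_one.1 h1)

end

/-- **number of real embeddings prime to `p`, and CM fields of degree prime to `p`** -/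
theorem real_or_cm' (p : ℕ) [hp : Fact p.Prime] (hp2 : p ≠ 2)
    (h : ∀ F : IntermediateField ℚ Qb, FiniteDimensional ℚ F →
    (¬ p ∣ Nat.card (F →+* ℝ) ∨ (IsCMField F ∧ ¬ p ∣ finrank ℚ F)) → MuZ p F)
    (F : IntermediateField ℚ Qb) (hF : FiniteDimensional ℚ F) : MuZ p F := by
  obtain ⟨N, hN, hNn, hFN⟩ := exists_normal F
  obtain ⟨φ, c, hcc⟩ := exists_cc
  refine detect p hp2 N hN hNn {E | E ≤ N ∧ MuZ p E} (fun E hE => hE.1) ?_ (fun E hE => hE.2) F hFN
  intro S _ _ _ τ hτ hs
  have hnt : Nontrivial S := hs.1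
  rcases dichotomy hτ (fun x _ => hcc.sq x) with ⟨v₀, hv₀, hcv₀⟩ | hneg
  · obtain ⟨v, hv, hpv⟩ := exists_prime_real (p := p) hv₀ hcv₀
    have hle := stab_le hτ v
    refine ⟨fixedField (stab τ v), ⟨hle, h _ (fd_of_le hle) (Or.inl ?_)⟩, v, hv, ?_⟩
    · rw [card_real hcc hτ v]
      exact hpv
    · rw [stab_fix hτ v]
      exact fun g hg => hg
  · obtain ⟨v, hv, P, hP, hPp⟩ := exists_vec_P ((InfiniteGalois.normal_iff_isGalois N).2 hNn)
      (index_ne_zero' N) τ hτ
    have hle := stab_le hτ v
    refine ⟨fixedField (stab τ v), ⟨hle, h _ (fd_of_le hle) (Or.inr ⟨?_,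
      index_stab p hτ hP hPp⟩)⟩, v, hv, ?_⟩
    · have h1 : ∃ x ∈ fixedField (stab τ v), c x ≠ x := by
        by_contra hcon
        push Not at hcon
        have h2 : c ∈ (fixedField (stab τ v)).fixingSubgroup := by
          rw [IntermediateField.mem_fixingSubgroup_iff]
          exact hcon
        rw [stab_fix hτ v, mem_stab, hneg] at h2
        have h3 : (2 : ZMod p) • v = 0 := by
          rw [two_smul]
          nth_rw 1 [← h2]
          exact neg_add_cancel v
        rcases smul_eq_zero.1 h3 with h4 | h4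
        · have h5 : ((2 : ℕ) : ZMod p) = 0 := by exact_mod_cast h4
          rw [ZMod.natCast_eq_zero_iff] at h5
          exact hp2 ((Nat.prime_dvd_prime_iff_eq hp.out Nat.prime_two).1 h5)
        · exact hv h4
      obtain ⟨x₀, hx₀, hne⟩ := h1
      refine cm_field hcc (fd_of_le hle) (fun g x hx => ?_) hx₀ hne
      exact (mem_fixedField_iff _ _).1 hx _ (neg_comm hneg g v)
    · rw [stab_fix hτ v]
      exact fun g hg => hg

end Pool.Agent.K1H70.MU
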