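import Pool.Agent.K1H70.MU.Pr

/-! # Transitivity and Frobenius elements -/

set_option autoImplicit false
set_option linter.all false

namespace Pool.Agent.K1H70.MU

open NumberField Polynomial
open scoped Pointwise
open Pool.Agent.Q60.MU (Qb)

section

variable (L : IntermediateField ℚ Qb)

instance galL : IsGalois L Qb := IsGalois.tower_top_intermediateField L

theorem coe_smulL (σ : Gal(Qb/L)) (x : 𝓞 Qb) : ((σ • x : 𝓞 Qb) : Qb) = σ (x : Qb) := rfl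

instance inst_commL : SMulCommClass (Gal(Qb/L)) (𝓞 L) (𝓞 Qb) where
  smul_comm σ a x := by
    apply RingOfIntegers.ext
    rw [coe_smulL]
    simp only [Algebra.smul_def, map_mul]
    exact congrArg₂ (· * ·) (σ.commutes (a : L)) rfl

instance inst_invL : Algebra.IsInvariant (𝓞 L) (𝓞 Qb) (Gal(Qb/L)) where
  isInvariant x hx := by
    have h : (x : Qb) ∈ Set.range (algebraMap L Qb) := by
      rw [InfiniteGalois.mem_range_algebraMap_iff_fixed]
      intro σ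
      have := congrArg (fun y : 𝓞 Qb => (y : Qb)) (hx σ)
      exact this
    obtain ⟨k, hk⟩ := h
    have hint : IsIntegral ℤ k := by
      have h1 : IsIntegral ℤ (x : Qb) := x.isIntegral_coe
      rw [← hk] at h1
      exact (isIntegral_algebraMap_iff (algebraMap L Qb).injective).mp h1
    refine ⟨⟨k, hint⟩, ?_⟩
    apply RingOfIntegers.ext
    exact hk

/-- the Galois group of `Qb / L` acts transitively on the primes above a prime of `L` -/
theorem trans_L (Q Q' : Ideal (𝓞 Qb)) [hQ : Q.IsPrime] [hQ' : Q'.IsPrime]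
    (h : Q.comap (algebraMap (𝓞 L) (𝓞 Qb)) = Q'.comap (algebraMap (𝓞 L) (𝓞 Qb))) :
    ∃ σ : GQ, σ ∈ L.fixingSubgroup ∧ Q' = σ • Q := by
  letI : TopologicalSpace (𝓞 Qb) := ⊥
  haveI : DiscreteTopology (𝓞 Qb) := ⟨rfl⟩
  haveI : ContinuousSMul (Gal(Qb/L)) (𝓞 Qb) := by
    rw [continuousSMul_iff_stabilizer_isOpen]
    intro x
    have := stabilizer_isOpen_of_isIntegral (K := L) (L := Qb) (x : Qb)
    convert this using 1
    ext σ
    simp only [SetLike.mem_coe, MulAction.mem_stabilizer_iff]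
    constructor
    · intro h
      have := congrArg (fun y : 𝓞 Qb => (y : Qb)) h
      exact this
    · intro h
      exact RingOfIntegers.ext h
  obtain ⟨g, hg⟩ := Algebra.IsInvariant.exists_smul_of_under_eq_of_profinite (A := 𝓞 L)
    (G := Gal(Qb/L)) Q Q' h
  refine ⟨g.restrictScalars ℚ, ?_, ?_⟩
  · rw [IntermediateField.mem_fixingSubgroup_iff]
    intro x hx
    exact g.commutes (⟨x, hx⟩ : L)
  · rw [hg]
    ext x
    rw [Ideal.mem_pointwise_smul_iff_inv_smul_mem, Ideal.mem_pointwise_smul_iff_inv_smul_mem]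
    have h1 : g⁻¹ • x = (g.restrictScalars ℚ : GQ)⁻¹ • x := by
      apply RingOfIntegers.ext
      rw [coe_smulL, coe_smul]
      rfl
    rw [h1]

end

instance inst_invZ : Algebra.IsInvariant ℤ (𝓞 Qb) GQ where
  isInvariant x hx := by
    have h : (x : Qb) ∈ Set.range (algebraMap ℚ Qb) := by
      rw [InfiniteGalois.mem_range_algebraMap_iff_fixed]
      intro σ
      have := congrArg (fun y : 𝓞 Qb => (y : Qb)) (hx σ)
      exact this
    obtain ⟨k, hk⟩ := h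
    have hint : IsIntegral ℤ k := by
      have h1 : IsIntegral ℤ (x : Qb) := x.isIntegral_coe
      rw [← hk] at h1
      exact (isIntegral_algebraMap_iff (algebraMap ℚ Qb).injective).mp h1
    obtain ⟨m, hm⟩ := IsIntegrallyClosed.isIntegral_iff.mp hint
    refine ⟨m, ?_⟩
    apply RingOfIntegers.ext
    rw [← hk, ← hm]
    simp

theorem contZ : letI : TopologicalSpace (𝓞 Qb) := ⊥
    ContinuousSMul GQ (𝓞 Qb) := by
  letI : TopologicalSpace (𝓞 Qb) := ⊥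
  haveI : DiscreteTopology (𝓞 Qb) := ⟨rfl⟩
  rw [continuousSMul_iff_stabilizer_isOpen]
  intro x
  have := stabilizer_isOpen_of_isIntegral (K := ℚ) (L := Qb) (x : Qb)
  convert this using 1
  ext σ
  simp only [SetLike.mem_coe, MulAction.mem_stabilizer_iff]
  constructor
  · intro h
    have := congrArg (fun y : 𝓞 Qb => (y : Qb)) h
    exact this
  · intro h
    exact RingOfIntegers.ext h

theorem comap_int {ℓ : ℕ} (hℓ : ℓ.Prime) {Q : Ideal (𝓞 Qb)} (hQ : Q.IsPrime)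
    (h : (ℓ : 𝓞 Qb) ∈ Q) : Q.comap (algebraMap ℤ (𝓞 Qb)) = Ideal.span {(ℓ : ℤ)} := by
  symm
  have hmax : (Ideal.span {(ℓ : ℤ)}).IsMaximal :=
    PrincipalIdealRing.isMaximal_of_irreducible (Nat.prime_iff_prime_int.mp hℓ).irreducible
  apply hmax.eq_of_le
  · exact (Ideal.comap_isPrime (algebraMap ℤ (𝓞 Qb)) Q).ne_top
  · rw [Ideal.span_le, Set.singleton_subset_iff, SetLike.mem_coe, Ideal.mem_comap]
    simpa using h

/-- transitivity on the primes above `ℓ` -/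
theorem trans_Q {ℓ : ℕ} (hℓ : ℓ.Prime) {Q Q' : Ideal (𝓞 Qb)} (hQ : Q.IsPrime) (hQ' : Q'.IsPrime)
    (h : (ℓ : 𝓞 Qb) ∈ Q) (h' : (ℓ : 𝓞 Qb) ∈ Q') : ∃ σ : GQ, Q' = σ • Q := by
  letI : TopologicalSpace (𝓞 Qb) := ⊥
  haveI : DiscreteTopology (𝓞 Qb) := ⟨rfl⟩
  haveI := contZ
  exact Algebra.IsInvariant.exists_smul_of_under_eq_of_profinite (A := ℤ)
    (G := GQ) Q Q' ((comap_int hℓ hQ h).trans (comap_int hℓ hQ' h').symm)

theorem isMax {ℓ : ℕ} (hℓ : ℓ.Prime) {Q : Ideal (𝓞 Qb)} (hQ : Q.IsPrime)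
    (h : (ℓ : 𝓞 Qb) ∈ Q) : Q.IsMaximal := by
  have h1 : (Q.comap (algebraMap ℤ (𝓞 Qb))).IsMaximal := by
    rw [comap_int hℓ hQ h]
    exact PrincipalIdealRing.isMaximal_of_irreducible (Nat.prime_iff_prime_int.mp hℓ).irreducible
  exact Ideal.isMaximal_of_isIntegral_of_isMaximal_comap Q h1

/-- Frobenius elements -/
theorem exists_frob {ℓ : ℕ} (hℓ : ℓ.Prime) {Q : Ideal (𝓞 Qb)} (hQ : Q.IsPrime)
    (h : (ℓ : 𝓞 Qb) ∈ Q) : ∃ σ : GQ, σ • Q = Q ∧ ∀ x : 𝓞 Qb, σ • x - x ^ ℓ ∈ Q := by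
  have hmaxQ := isMax hℓ hQ h
  letI : TopologicalSpace (𝓞 Qb) := ⊥
  haveI : DiscreteTopology (𝓞 Qb) := ⟨rfl⟩
  haveI := contZ
  have hmax : (Ideal.span {(ℓ : ℤ)}).IsMaximal :=
    PrincipalIdealRing.isMaximal_of_irreducible (Nat.prime_iff_prime_int.mp hℓ).irreducible
  haveI : Q.LiesOver (Ideal.span {(ℓ : ℤ)}) := ⟨(comap_int hℓ hQ h).symm⟩
  letI : Field (ℤ ⧸ Ideal.span {(ℓ : ℤ)}) := Ideal.Quotient.field _
  letI : Field ((𝓞 Qb) ⧸ Q) := Ideal.Quotient.field Q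
  have hne : (Ideal.span {(ℓ : ℤ)} : Ideal ℤ) ≠ ⊥ := by
    rw [Ne, Ideal.span_singleton_eq_bot]
    exact_mod_cast hℓ.ne_zero
  haveI : Finite (ℤ ⧸ Ideal.span {(ℓ : ℤ)}) := Ideal.finiteQuotientOfFreeOfNeBot _ hne
  letI : Fintype (ℤ ⧸ Ideal.span {(ℓ : ℤ)}) := Fintype.ofFinite _
  haveI : Algebra.IsAlgebraic (ℤ ⧸ Ideal.span {(ℓ : ℤ)}) ((𝓞 Qb) ⧸ Q) := by
    haveI : Algebra.IsIntegral (ℤ ⧸ Ideal.span {(ℓ : ℤ)}) ((𝓞 Qb) ⧸ Q) := inferInstance
    exact Algebra.IsIntegral.isAlgebraic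
  obtain ⟨g, hg⟩ := Ideal.Quotient.stabilizerHom_surjective_of_profinite (G := GQ)
    (Ideal.span {(ℓ : ℤ)}) Q
    (FiniteField.frobeniusAlgEquivOfAlgebraic (ℤ ⧸ Ideal.span {(ℓ : ℤ)}) ((𝓞 Qb) ⧸ Q))
  refine ⟨g.1, g.2, fun x => ?_⟩
  have h1 := DFunLike.congr_fun hg (Ideal.Quotient.mk Q x)
  rw [Ideal.Quotient.stabilizerHom_apply] at h1
  rw [← Ideal.Quotient.mk_eq_mk_iff_sub_mem, map_pow]
  have h2 : Fintype.card (ℤ ⧸ Ideal.span {(ℓ : ℤ)}) = ℓ := by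
    rw [← Nat.card_eq_fintype_card]
    have := Int.card_ideal_quot ℓ
    exact this
  have h3 : FiniteField.frobeniusAlgEquivOfAlgebraic (ℤ ⧸ Ideal.span {(ℓ : ℤ)}) ((𝓞 Qb) ⧸ Q)
      (Ideal.Quotient.mk Q x) = (Ideal.Quotient.mk Q x) ^
        Fintype.card (ℤ ⧸ Ideal.span {(ℓ : ℤ)}) := rfl
  rw [h3, h2] at h1
  exact h1

/-- the action of a Frobenius element on the roots of unity of order prime to the residue
characteristic -/
theorem frob_root {p ℓ : ℕ} (hp : p.Prime) (hℓ : ℓ.Prime) (hne : ℓ ≠ p) {Q : Ideal (𝓞 Qb)}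
    (hQ : Q.IsPrime) (h : (ℓ : 𝓞 Qb) ∈ Q) {σ : GQ} (hσ : ∀ x : 𝓞 Qb, σ • x - x ^ ℓ ∈ Q)
    {k : ℕ} {z : Qb} (hz : z ^ p ^ k = 1) : σ z = z ^ ℓ := by
  set N := p ^ k with hN
  have hN0 : 0 < N := pow_pos hp.pos k
  have hzi : IsIntegral ℤ z := IsIntegral.of_pow hN0 (by rw [hz]; exact isIntegral_one)
  obtain ⟨a, ha⟩ : ∃ a : 𝓞 Qb, (a : Qb) = z := ⟨⟨z, hzi⟩, rfl⟩
  have haN : a ^ N = 1 := by
    apply RingOfIntegers.ext
    have e1 : ((a ^ N : 𝓞 Qb) : Qb) = (a : Qb) ^ N := map_pow (algebraMap (𝓞 Qb) Qb) a N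
    rw [e1, ha, hz]
    exact (map_one (algebraMap (𝓞 Qb) Qb)).symm
  have hσN : (σ • a) ^ N = 1 := by rw [← smul_pow', haN, smul_one]
  set w : 𝓞 Qb := a ^ (ℓ * (N - 1)) with hw
  have haw : a ^ ℓ * w = 1 := by
    rw [hw, ← pow_add]
    have : ℓ + ℓ * (N - 1) = N * ℓ := by
      obtain ⟨M, hM⟩ : ∃ M, N = M + 1 := ⟨N - 1, by omega⟩
      rw [hM, Nat.add_sub_cancel]; ring
    rw [this, pow_mul, haN, one_pow]
  have hwN : w ^ N = 1 := by
    rw [hw, ← pow_mul, mul_comm, pow_mul, haN, one_pow]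
  set η : 𝓞 Qb := (σ • a) * w with hη
  have hηN : η ^ N = 1 := by rw [hη, mul_pow, hσN, hwN, one_mul]
  have hηQ : η - 1 ∈ Q := by
    have : η - 1 = (σ • a - a ^ ℓ) * w := by rw [sub_mul, haw]
    rw [this]
    exact Ideal.mul_mem_right _ _ (hσ a)
  have hη1 : η = 1 := by
    by_contra hcon
    have h1 : (∑ i ∈ Finset.range N, η ^ i) * (η - 1) = 0 := by
      rw [geom_sum_mul, hηN, sub_self]
    have h2 : ∑ i ∈ Finset.range N, η ^ i = 0 :=
      (mul_eq_zero.1 h1).resolve_right (sub_ne_zero.2 hcon)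
    have h3 : (N : 𝓞 Qb) ∈ Q := by
      rw [← Ideal.Quotient.eq_zero_iff_mem]
      have h4 : Ideal.Quotient.mk Q η = 1 := by
        rw [← map_one (Ideal.Quotient.mk Q)]
        exact (Ideal.Quotient.eq).2 hηQ
      have h5 := congrArg (Ideal.Quotient.mk Q) h2
      rw [map_sum, map_zero] at h5
      simp only [map_pow, h4, one_pow, Finset.sum_const, Finset.card_range, nsmul_eq_mul,
        mul_one] at h5
      rw [map_natCast]
      exact h5
    have h4 : (p : 𝓞 Qb) ∈ Q := by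
      rw [hN, Nat.cast_pow] at h3
      exact hQ.mem_of_pow_mem _ h3
    have h5 : IsCoprime (p : ℤ) (ℓ : ℤ) :=
      Nat.isCoprime_iff_coprime.2 ((Nat.coprime_primes hp hℓ).2 hne.symm)
    obtain ⟨u, v, huv⟩ := h5
    apply hQ.ne_top
    rw [Ideal.eq_top_iff_one]
    have h6 : (1 : 𝓞 Qb) = (u : 𝓞 Qb) * (p : 𝓞 Qb) + (v : 𝓞 Qb) * (ℓ : 𝓞 Qb) := by
      have := congrArg (Int.cast : ℤ → 𝓞 Qb) huv
      push_cast at this
      exact this.symm
    rw [h6]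
    exact Ideal.add_mem _ (Ideal.mul_mem_left _ _ h4) (Ideal.mul_mem_left _ _ h)
  have h7 : σ • a = a ^ ℓ := by
    have h8 : (σ • a) * w = a ^ ℓ * w := by rw [haw]; exact hη1
    have h9 : w ≠ 0 := by
      rintro h0
      rw [h0, mul_zero] at haw
      exact zero_ne_one haw
    exact mul_right_cancel₀ h9 h8
  have h10 := congrArg (fun y : 𝓞 Qb => (y : Qb)) h7
  have e1 : ((a ^ ℓ : 𝓞 Qb) : Qb) = (a : Qb) ^ ℓ := map_pow (algebraMap (𝓞 Qb) Qb) a ℓ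
  have h11 : σ (a : Qb) = (a : Qb) ^ ℓ := h10.trans e1
  rwa [ha] at h11

end Pool.Agent.K1H70.MU
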